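import Pool.Agent.P.MP_b7c14b_al.Defs

/-! Translations, the multiplication group as an acting group, homomorphisms. -/

namespace Pool.Agent.ALoop

noncomputable section

variable {Q : Type} [Mul Q] [One Q] [IsALoop Q]

theorem lone (a : Q) : 1 * a = a := IsALoop.one_mul a

theorem rone (a : Q) : a * 1 = a := IsALoop.mul_one a

theorem lcan {a x y : Q} (h : a * x = a * y) : x = y :=
  (IsALoop.left a (a * y)).unique h rfl

theorem rcan {a x y : Q} (h : x * a = y * a) : x = y :=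
  (IsALoop.right a (y * a)).unique h rfl

theorem lex (a b : Q) : ∃ x, a * x = b := (IsALoop.left a b).exists

theorem rex (a b : Q) : ∃ y, y * a = b := (IsALoop.right a b).exists

/-- The multiplication group as a type. -/
abbrev Γ (Q : Type) [Mul Q] : Type := ↥(mlt Q)

/-- Left translation. -/
def L (a : Q) : Γ Q :=
  ⟨Equiv.ofBijective (a * ·) ⟨fun _ _ => lcan, lex a⟩,
    Subgroup.subset_closure ⟨a, Or.inl fun _ => rfl⟩⟩

/-- Right translation. -/
def R (a : Q) : Γ Q :=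
  ⟨Equiv.ofBijective (· * a) ⟨fun _ _ => rcan, rex a⟩,
    Subgroup.subset_closure ⟨a, Or.inr fun _ => rfl⟩⟩

theorem L_smul (a x : Q) : L a • x = a * x := rfl

theorem R_smul (a x : Q) : R a • x = x * a := rfl

theorem Li_mul (a x : Q) : (L a)⁻¹ • (a * x) = x := inv_smul_smul (L a) x

theorem Ri_mul (a x : Q) : (R a)⁻¹ • (x * a) = x := inv_smul_smul (R a) x

theorem mul_Li (a x : Q) : a * (L a)⁻¹ • x = x := smul_inv_smul (L a) x

theorem mul_Ri (a x : Q) : (R a)⁻¹ • x * a = x := smul_inv_smul (R a) x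

theorem Li_self (a : Q) : (L a)⁻¹ • a = 1 := by
  rw [inv_smul_eq_iff, L_smul, rone]

theorem Ri_self (a : Q) : (R a)⁻¹ • a = 1 := by
  rw [inv_smul_eq_iff, R_smul, lone]

omit [One Q] [IsALoop Q] in
theorem Γext {g g' : Γ Q} (h : ∀ x : Q, g • x = g' • x) : g = g' :=
  Subtype.ext (Equiv.ext h)

theorem aut {g : Γ Q} (h : g • (1 : Q) = 1) (x y : Q) : g • (x * y) = g • x * g • y :=
  IsALoop.aut g.1 g.2 h x y

theorem Γind {P : Γ Q → Prop} (h1 : P 1) (hL : ∀ a, P (L a)) (hR : ∀ a, P (R a))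
    (hm : ∀ g g', P g → P g' → P (g * g')) (hi : ∀ g, P g → P g⁻¹) (g : Γ Q) : P g := by
  obtain ⟨g, hg⟩ := g
  induction hg using Subgroup.closure_induction with
  | mem σ hσ =>
    obtain ⟨a, h | h⟩ := id hσ
    · have : (⟨σ, Subgroup.subset_closure hσ⟩ : Γ Q) = L a := Γext h
      exact this ▸ hL a
    · have : (⟨σ, Subgroup.subset_closure hσ⟩ : Γ Q) = R a := Γext h
      exact this ▸ hR a
  | one => exact h1
  | mul x y hx hy ihx ihy => exact hm ⟨x, hx⟩ ⟨y, hy⟩ ihx ihy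
  | inv x hx ih => exact hi ⟨x, hx⟩ ih

theorem conj_L {h : Γ Q} (h1 : h • (1 : Q) = 1) (a : Q) : h * L a = L (h • a) * h :=
  Γext fun x => by rw [mul_smul, mul_smul, L_smul, L_smul, aut h1]

theorem conj_R {h : Γ Q} (h1 : h • (1 : Q) = 1) (a : Q) : h * R a = R (h • a) * h :=
  Γext fun x => by rw [mul_smul, mul_smul, R_smul, R_smul, aut h1]

omit [One Q] [IsALoop Q] in
theorem inv_fix {h : Γ Q} {x : Q} (h1 : h • x = x) : h⁻¹ • x = x := by
  rw [inv_smul_eq_iff, h1]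

theorem L_one : L (1 : Q) = 1 := Γext fun x => by rw [L_smul, lone, one_smul]

section Hom

variable {A B : Type} [Mul A] [One A] [IsALoop A] [Mul B] [One B] [IsALoop B]

/-- Multiplicative maps. -/
def IsHom {A B : Type} [Mul A] [Mul B] (f : A → B) : Prop := ∀ x y, f (x * y) = f x * f y

theorem IsHom.one {f : A → B} (hf : IsHom f) : f 1 = 1 :=
  lcan (a := f 1) (by rw [← hf, rone, rone])

theorem IsHom.push {f : A → B} (hf : IsHom f) (g : Γ A) :
    ∃ g' : Γ B, ∀ x, f (g • x) = g' • f x := by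
  induction g using Γind with
  | h1 => exact ⟨1, fun x => by rw [one_smul, one_smul]⟩
  | hL a => exact ⟨L (f a), fun x => hf a x⟩
  | hR a => exact ⟨R (f a), fun x => hf x a⟩
  | hm g g' h h' =>
    obtain ⟨k, hk⟩ := h
    obtain ⟨k', hk'⟩ := h'
    exact ⟨k * k', fun x => by rw [mul_smul, mul_smul, hk, hk']⟩
  | hi g h =>
    obtain ⟨k, hk⟩ := h
    exact ⟨k⁻¹, fun x => by rw [eq_inv_smul_iff, ← hk, smul_inv_smul]⟩

theorem IsHom.pull {f : A → B} (hf : IsHom f) (hs : Function.Surjective f) (g' : Γ B) :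
    ∃ g : Γ A, ∀ x, f (g • x) = g' • f x := by
  induction g' using Γind with
  | h1 => exact ⟨1, fun x => by rw [one_smul, one_smul]⟩
  | hL b =>
    obtain ⟨a, rfl⟩ := hs b
    exact ⟨L a, fun x => hf a x⟩
  | hR b =>
    obtain ⟨a, rfl⟩ := hs b
    exact ⟨R a, fun x => hf x a⟩
  | hm g g' h h' =>
    obtain ⟨k, hk⟩ := h
    obtain ⟨k', hk'⟩ := h'
    exact ⟨k * k', fun x => by rw [mul_smul, mul_smul, hk, hk']⟩
  | hi g h =>
    obtain ⟨k, hk⟩ := h
    exact ⟨k⁻¹, fun x => by rw [eq_inv_smul_iff, ← hk, smul_inv_smul]⟩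

/-- The map induced on multiplication groups by a surjective homomorphism. -/
def ind {f : A → B} (hf : IsHom f) (hs : Function.Surjective f) : Γ A →* Γ B :=
  MonoidHom.mk' (fun g => (hf.push g).choose) fun g g' => Γext fun y => by
    obtain ⟨x, rfl⟩ := hs y
    rw [mul_smul, ← (hf.push _).choose_spec, ← (hf.push _).choose_spec,
      ← (hf.push _).choose_spec, mul_smul]

theorem ind_smul {f : A → B} (hf : IsHom f) (hs : Function.Surjective f) (g : Γ A) (x : A) :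
    ind hf hs g • f x = f (g • x) := ((hf.push g).choose_spec x).symm

theorem ind_L {f : A → B} (hf : IsHom f) (hs : Function.Surjective f) (a : A) :
    ind hf hs (L a) = L (f a) := Γext fun y => by
  obtain ⟨x, rfl⟩ := hs y
  rw [ind_smul, L_smul, L_smul, hf]

theorem ind_R {f : A → B} (hf : IsHom f) (hs : Function.Surjective f) (a : A) :
    ind hf hs (R a) = R (f a) := Γext fun y => by
  obtain ⟨x, rfl⟩ := hs y
  rw [ind_smul, R_smul, R_smul, hf]

theorem mem_ker_ind {f : A → B} (hf : IsHom f) (hs : Function.Surjective f) {g : Γ A} :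
    g ∈ (ind hf hs).ker ↔ ∀ x, f (g • x) = f x := by
  rw [MonoidHom.mem_ker]
  refine ⟨fun h x => by rw [← ind_smul hf hs, h, one_smul], fun h => Γext fun y => ?_⟩
  obtain ⟨x, rfl⟩ := hs y
  rw [ind_smul, h, one_smul]

theorem IsHom.congr {f : A → B} (hf : IsHom f) (g : Γ A) {x y : A} (h : f x = f y) :
    f (g • x) = f (g • y) := by
  obtain ⟨k, hk⟩ := hf.push g
  rw [hk, hk, h]

theorem IsHom.card {f : A → B} (hf : IsHom f) (hs : Function.Surjective f) :
    Nat.card A = (f ⁻¹' {1}).ncard * Nat.card B := by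
  rw [← Nat.card_coe_set_eq, ← Nat.card_prod]
  symm
  refine Nat.card_congr (Equiv.ofBijective
    (fun z : (f ⁻¹' {1}) × B => z.1.1 * Function.surjInv hs z.2) ⟨?_, fun a => ?_⟩)
  · rintro ⟨⟨k, hk⟩, b⟩ ⟨⟨k', hk'⟩, b'⟩ h
    have h1 := congrArg f h
    simp only [] at h h1
    rw [hf, hf, Function.surjInv_eq hs, Function.surjInv_eq hs, show f k = 1 from hk,
      show f k' = 1 from hk', lone, lone] at h1
    subst h1
    rw [Prod.mk.injEq, Subtype.mk.injEq]
    exact ⟨rcan h, rfl⟩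
  · obtain ⟨k, hk⟩ := rex (Function.surjInv hs (f a)) a
    refine ⟨⟨⟨k, rcan (a := f a) ?_⟩, f a⟩, hk⟩
    rw [lone]
    conv_rhs => rw [← hk, hf, Function.surjInv_eq hs]

theorem IsHom.comap {f : A → B} (hf : IsHom f) {S : Set B} (hS : IsSubloop S) :
    IsSubloop (f ⁻¹' S) where
  one_mem := by rw [Set.mem_preimage, hf.one]; exact hS.one_mem
  mul_mem a ha b hb := by rw [Set.mem_preimage, hf]; exact hS.mul_mem _ ha _ hb
  ldiv_mem a ha b hb x h := hS.ldiv_mem _ ha _ hb _ (by rw [← hf, h])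
  rdiv_mem a ha b hb x h := hS.rdiv_mem _ ha _ hb _ (by rw [← hf, h])

theorem IsHom.map {f : A → B} (hf : IsHom f) {S : Set A} (hS : IsSubloop S) :
    IsSubloop (f '' S) where
  one_mem := ⟨1, hS.one_mem, hf.one⟩
  mul_mem := by
    rintro _ ⟨a, ha, rfl⟩ _ ⟨b, hb, rfl⟩
    exact ⟨_, hS.mul_mem _ ha _ hb, hf a b⟩
  ldiv_mem := by
    rintro _ ⟨a, ha, rfl⟩ _ ⟨b, hb, rfl⟩ x h
    obtain ⟨z, hz⟩ := lex a b
    exact ⟨z, hS.ldiv_mem _ ha _ hb _ hz, lcan (by rw [← hf, hz, h])⟩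
  rdiv_mem := by
    rintro _ ⟨a, ha, rfl⟩ _ ⟨b, hb, rfl⟩ x h
    obtain ⟨z, hz⟩ := rex a b
    exact ⟨z, hS.rdiv_mem _ ha _ hb _ hz, rcan (by rw [← hf, hz, h])⟩

theorem IsHom.comap_normal {f : A → B} (hf : IsHom f) {S : Set B} (hS : IsNormal S) :
    IsNormal (f ⁻¹' S) := by
  refine ⟨hf.comap hS.1, fun φ hφ h1 x hx => ?_⟩
  obtain ⟨k, hk⟩ := hf.push ⟨φ, hφ⟩
  have h2 := hk 1
  rw [show (⟨φ, hφ⟩ : Γ A) • (1 : A) = 1 from h1, hf.one] at h2
  change f ((⟨φ, hφ⟩ : Γ A) • x) ∈ S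
  rw [hk]
  exact hS.2 k.1 k.2 h2.symm _ hx

end Hom

theorem sub_one : IsSubloop ({1} : Set Q) where
  one_mem := rfl
  mul_mem := by rintro _ rfl _ rfl; exact lone 1
  ldiv_mem := by rintro _ rfl _ rfl x h; rwa [lone] at h
  rdiv_mem := by rintro _ rfl _ rfl x h; rwa [rone] at h

omit [IsALoop Q] in
theorem sub_univ : IsSubloop (Set.univ : Set Q) :=
  ⟨trivial, fun _ _ _ _ => trivial, fun _ _ _ _ _ _ => trivial, fun _ _ _ _ _ _ => trivial⟩

theorem normal_one : IsNormal ({1} : Set Q) := ⟨sub_one, by rintro φ - h _ rfl; exact h⟩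

omit [IsALoop Q] in
theorem normal_univ : IsNormal (Set.univ : Set Q) := ⟨sub_univ, fun _ _ _ _ _ => trivial⟩

omit [IsALoop Q] in
theorem IsNormal.smul {S : Set Q} (hS : IsNormal S) {g : Γ Q} (h : g • (1 : Q) = 1) {x : Q}
    (hx : x ∈ S) : g • x ∈ S := hS.2 g.1 g.2 h x hx

theorem sub_of_mul [Finite Q] {S : Set Q} (h1 : 1 ∈ S) (hm : ∀ a ∈ S, ∀ b ∈ S, a * b ∈ S) :
    IsSubloop S where
  one_mem := h1
  mul_mem := hm
  ldiv_mem a ha b hb x h := by
    have := Finite.surjective_of_injective (f := fun z : S => (⟨a * z, hm _ ha _ z.2⟩ : S))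
      fun z z' e => Subtype.ext (lcan (congrArg Subtype.val e))
    obtain ⟨z, hz⟩ := this ⟨b, hb⟩
    rw [show x = z from lcan (h.trans (congrArg Subtype.val hz).symm)]
    exact z.2
  rdiv_mem a ha b hb x h := by
    have := Finite.surjective_of_injective (f := fun z : S => (⟨z * a, hm _ z.2 _ ha⟩ : S))
      fun z z' e => Subtype.ext (rcan (congrArg Subtype.val e))
    obtain ⟨z, hz⟩ := this ⟨b, hb⟩
    rw [show x = z from rcan (h.trans (congrArg Subtype.val hz).symm)]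
    exact z.2

end

end Pool.Agent.ALoop
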