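import Pool.Agent.P.MP_b7c14b_al.Two

/-! Two elementary abelian layers for different primes: construction of a complement. -/

namespace Pool.Agent.ALoop

noncomputable section

/-- The output of Sylow's theorem and the Frattini argument for normal subgroups `W ≤ E`. -/
structure Pack {H : Type} [Group H] (W E : Subgroup H) (p : ℕ) (P : Subgroup H) : Prop where
  le : P ≤ E
  pg : IsPGroup p P
  cover : ∀ g ∈ E, ∃ ρ ∈ P, ρ⁻¹ * g ∈ W
  frat : ∀ γ, ∃ ν, (∀ ρ, ρ ∈ P ↔ ν * ρ * ν⁻¹ ∈ P) ∧ ν⁻¹ * γ ∈ W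

theorem exists_pack {H : Type} [Group H] [Finite H] (W E : Subgroup H) [W.Normal] [E.Normal]
    {p : ℕ} [Fact p.Prime] (h : ∀ g ∈ E, g ^ p ∈ W) : ∃ P, Pack W E p P := by
  obtain ⟨P⟩ : Nonempty (Sylow p E) := inferInstance
  have h1 : ∀ g ∈ E, ∃ ρ ∈ P.map E.subtype, ρ⁻¹ * g ∈ W := fun g hg => by
    have h2 : IsPGroup p (⊤ : Subgroup (E ⧸ W.subgroupOf E)) := by
      refine IsPGroup.to_subgroup (fun x => ⟨1, ?_⟩) _
      obtain ⟨x, rfl⟩ := QuotientGroup.mk_surjective x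
      rw [pow_one, ← QuotientGroup.mk_pow, QuotientGroup.eq_one_iff]
      exact h _ x.2
    have h3 := (P.mapSurjective (QuotientGroup.mk'_surjective (W.subgroupOf E))).is_maximal' h2
      le_top
    obtain ⟨ρ, hρ, e⟩ := h3.le (Subgroup.mem_top (QuotientGroup.mk' _ ⟨g, hg⟩))
    exact ⟨ρ, ⟨ρ, hρ, rfl⟩, QuotientGroup.eq (s := W.subgroupOf E).1 e⟩
  refine ⟨_, Subgroup.map_subtype_le _, P.isPGroup'.map _, h1, fun γ => ?_⟩
  obtain ⟨ν, hν, g, hg, rfl⟩ := Subgroup.mem_sup_of_normal_right.1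
    (P.normalizer_sup_eq_top.ge (Subgroup.mem_top γ))
  obtain ⟨ρ, hρ, e⟩ := h1 g hg
  exact ⟨ν * ρ, Subgroup.mem_normalizer_iff.1 (mul_mem hν (Subgroup.le_normalizer hρ)),
    by simpa [mul_assoc] using e⟩

theorem Pack.conj {H : Type} [Group H] {W E P : Subgroup H} [hW : W.Normal] [hE : E.Normal] {p : ℕ}
    (h : Pack W E p P) (a : H) : ∃ P', Pack W E p P' ∧ ∀ ρ ∈ P', a * ρ * a⁻¹ ∈ P := by
  let P' := P.comap (MulAut.conj a).toMonoidHom
  have m : ∀ x, x ∈ P' ↔ a * x * a⁻¹ ∈ P := fun x => Iff.rfl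
  refine ⟨P', ⟨fun x hx => ?_, h.pg.comap_of_injective _ (MulAut.conj a).injective,
    fun g hg => ?_, fun γ => ?_⟩, fun ρ hρ => hρ⟩
  · simpa [mul_assoc] using hE.conj_mem' _ (h.le hx) a
  · obtain ⟨ρ, h1, h2⟩ := h.cover _ (hE.conj_mem g hg a)
    exact ⟨a⁻¹ * ρ * a, (m _).2 (by simpa [mul_assoc] using h1),
      by simpa [mul_assoc] using hW.conj_mem' _ h2 a⟩
  · obtain ⟨ν, h1, h2⟩ := h.frat (a * γ * a⁻¹)
    refine ⟨a⁻¹ * ν * a, fun ρ => ?_, by simpa [mul_assoc] using hW.conj_mem' _ h2 a⟩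
    rw [m, m, h1]
    simp [mul_assoc]

namespace Ext

variable {N Q K G K₂ : Type} [Group N] [Mul Q] [One Q] [IsALoop Q] [Mul K] [One K] [IsALoop K]
  [Group G] [Mul K₂] [One K₂] [IsALoop K₂] {X : Ext N Q K} {Y : Ext G K K₂} {q p : ℕ} [Finite Q]

/-- The points fixed by the stabilizer in `P` of their coset. -/
def S (X : Ext N Q K) (P : Subgroup (Γ Q)) : Set Q :=
  {y | ∀ ρ ∈ P, X.f (ρ • y) = X.f y → ρ • y = y}

omit [Finite Q] in
theorem S_smul {P P' : Subgroup (Γ Q)} {γ : Γ Q} (h : ∀ ρ ∈ P', γ⁻¹ * ρ * γ ∈ P) {y : Q}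
    (hy : y ∈ X.S P) : γ • y ∈ X.S P' := fun ρ hρ e => by
  have := hy _ (h ρ hρ) (by rw [mul_smul, mul_smul, X.f_mul.congr _ e, inv_smul_smul])
  rwa [mul_smul, mul_smul, inv_smul_eq_iff] at this

namespace Two

variable (T : X.Two Y q p)

include T

theorem fix_one {d h : Γ Q} (hd : d ∈ X.D Y) (hh : h ∈ X.C Y) (h1 : h • (1 : Q) = 1) (u : Q) :
    h • (L u * d * (L u)⁻¹) • (1 : Q) = (L u * d * (L u)⁻¹) • (1 : Q) := by
  have hW : X.W.Normal := inferInstance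
  have hE := T.normal
  have d1 := hd.2 1 (X.c_one Y)
  generalize hδ : L u * d * (L u)⁻¹ = δ
  replace hδ := hδ.symm
  have δW : δ ∈ X.W := hδ ▸ hW.conj_mem _ hd.1 _
  have δu : ∀ z, X.c Y z = X.c Y u → δ • z = z := fun z hz => by
    rw [hδ, mul_smul, mul_smul, hd.2, smul_inv_smul]
    exact lcan (a := X.c Y u) (by rw [← X.c_mul, mul_Li, rone, hz])
  obtain ⟨m, hm⟩ := rex u (h • u)
  have cm : X.c Y m = 1 :=
    rcan (a := X.c Y u) (by rw [← X.c_mul, hm, X.c_smul Y hh.1, lone])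
  obtain ⟨β, hβ⟩ : ∃ β, β = δ * (h * δ⁻¹ * h⁻¹) := ⟨_, rfl⟩
  have βW : β ∈ X.W := hβ ▸ mul_mem δW (hW.conj_mem _ (inv_mem δW) _)
  have βu : ∀ z, X.c Y z = X.c Y u → β • z = z := fun z hz => by
    rw [hβ, mul_smul, mul_smul, mul_smul, inv_fix (δu _ _), smul_inv_smul, δu z hz]
    rw [X.c_smul Y (inv_mem hh.1), hz]
  obtain ⟨ω, hω⟩ : ∃ ω, ω = d * δ⁻¹ := ⟨_, rfl⟩
  have ωW : ω ∈ X.W := hω ▸ mul_mem hd.1 (inv_mem δW)
  have ω1 : ∀ x, ω • (u * x) = d • u * x := fun x => by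
    have : ω * L u = L (d • u) := by
      rw [← mul_inv_cancel_right (L (d • u)) d, ← conj_L d1, hω, hδ]
      group
    rw [← L_smul, ← mul_smul, this, L_smul]
  have ω2 : ∀ x, (ω * β) • (h • u * x) = m * d • u * x := fun x => by
    have e1 : ω * β = h * ω * h⁻¹ := by
      rw [hω, hβ, ← mul_assoc h, ← hh.2 d hd]
      group
    have e2 : h • d • u = m * d • u := by
      rw [← mul_smul, ← hh.2 d hd, mul_smul, ← hm, aut d1, hd.2 m cm]
    rw [e1, mul_smul, mul_smul, aut (inv_fix h1), inv_smul_smul, ω1, aut h1, smul_inv_smul, e2]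
  obtain ⟨e, he⟩ : ∃ e, e = R u * L m * (R u)⁻¹ := ⟨_, rfl⟩
  have eE : e ∈ X.E Y := he ▸ hE.conj_mem _ (T.L_mem cm).1 _
  have eβ : e * β = β * e := by
    have := (T.L_mem cm).2 ((R u)⁻¹ * β * R u) ⟨hW.conj_mem' _ βW _, fun z hz => by
      rw [mul_smul, mul_smul, βu, inv_smul_smul]
      rw [R_smul, X.c_mul, hz, lone]⟩
    calc _ = R u * (L m * ((R u)⁻¹ * β * R u)) * (R u)⁻¹ := by rw [he]; group
      _ = _ := by rw [← this, he]; group
  have k1 : ∀ z, X.c Y z = X.c Y (u * u) → (e * ω * e⁻¹) • z = (ω * β) • z := fun z hz => by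
    obtain ⟨x, rfl⟩ := lex (h • u) z
    have cx : X.c Y x = X.c Y u := lcan (by rwa [X.c_mul, X.c_mul, X.c_smul Y hh.1] at hz)
    have e1 := T.wcomm (T.comm_mem (T.RR cx) eE) (hW.conj_mem _ ωW e)
    have e2 : e * ω * e⁻¹ = R x * L m * (R x)⁻¹ * ω * (R x * L m * (R x)⁻¹)⁻¹ := by
      have e3 : R x * L m * (R x)⁻¹ = R x * (R u)⁻¹ * e * (R x * (R u)⁻¹)⁻¹ * e⁻¹ * e := by
        rw [he]; group
      rw [e3]
      calc _ = R x * (R u)⁻¹ * e * (R x * (R u)⁻¹)⁻¹ * e⁻¹ * (e * ω * e⁻¹) *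
          (R x * (R u)⁻¹ * e * (R x * (R u)⁻¹)⁻¹ * e⁻¹)⁻¹ := by rw [e1, mul_inv_cancel_right]
        _ = _ := by group
    have e4 : ∀ y, (R x * L m * (R x)⁻¹) • (y * x) = m * y * x := fun y => by
      rw [mul_smul, mul_smul, Ri_mul, L_smul, R_smul]
    rw [e2, ω2, ← hm, ← e4, mul_smul, inv_smul_smul, mul_smul _ ω, ω1, e4]
  have k2 : ∀ i : ℕ, ∀ z, X.c Y z = X.c Y (u * u) →
      (e ^ i * ω * (e ^ i)⁻¹) • z = (ω * β ^ i) • z := fun i => by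
    induction i with
    | zero => simp
    | succ i ih =>
      intro z hz
      have e1 : e ^ (i + 1) * ω * (e ^ (i + 1))⁻¹ = e * (e ^ i * ω * (e ^ i)⁻¹) * e⁻¹ := by group
      have e2 : e * (ω * β ^ i) * e⁻¹ = e * ω * e⁻¹ * β ^ i := by
        rw [mul_assoc, mul_assoc, mul_assoc, mul_assoc,
          ((Commute.pow_right eβ i).inv_left).eq]
      rw [e1, mul_smul, mul_smul, ih _ (by rw [X.c_smul Y (inv_mem eE), hz]), ← mul_smul,
        ← mul_smul, e2, mul_smul, k1 _ (by rw [X.c_smul Y (X.W_le Y (X.W.pow_mem βW i)), hz]),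
        ← mul_smul, pow_succ', mul_assoc]
  have k3 : β • (u * u) = u * u := by
    have e1 := k2 p _ rfl
    rw [T.wcomm (T.pow_mem eE) ωW, mul_inv_cancel_right, mul_smul, smul_left_cancel_iff] at e1
    obtain ⟨k, hk⟩ := exists_pow_eq_self_of_coprime (x := β) (n := p)
      (((Nat.coprime_primes T.ey.prime T.ex.prime).2 T.ne).coprime_dvd_right
        (orderOf_dvd_of_pow_eq_one (T.ex.exp' (T.le βW))))
    rw [← hk]
    exact (MulAction.stabilizer (Γ Q) (u * u)).pow_mem e1.symm k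
  have k4 : β • (1 : Q) = 1 := by
    have e1 : ((L u)⁻¹ * β * L u) • (1 : Q) = 1 := by
      rw [mul_smul, mul_smul, L_smul, rone, βu u rfl, Li_self]
    have e2 : ((L u)⁻¹ * β * L u) • u = u := by rw [mul_smul, mul_smul, L_smul, k3, Li_mul]
    obtain ⟨z, hz⟩ := lex u 1
    have e3 := aut e1 u z
    rw [hz, e1, e2, ← hz] at e3
    have e4 := lcan e3
    rw [mul_smul, mul_smul, eq_inv_smul_iff, L_smul, hz] at e4
    exact e4.symm
  rw [← T.wfix βW k4 (z := h • δ • 1) (by rw [X.f_mul.congr _ (X.mem_W.1 δW 1), h1]), hβ,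
    mul_smul, mul_smul, mul_smul, inv_smul_smul, inv_smul_smul, h1]

variable (hU : ∀ n, (∀ g ∈ X.C Y, g • (1 : Q) = 1 → g • X.ι n = X.ι n) → n = 1)

include hU

theorem D_one {d : Γ Q} (hd : d ∈ X.D Y) : d = 1 := Γext fun z => by
  obtain ⟨u, hu⟩ := rex z 1
  obtain ⟨n, hn⟩ := (X.ker _).1 ((X.mem_W.1
    (Subgroup.Normal.conj_mem inferInstance _ hd.1 (L u)) 1).trans X.f_mul.one)
  rw [hU n fun g hg e => hn ▸ T.fix_one hd hg e u, X.ι_one, mul_smul, mul_smul, ← hu,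
    Li_mul] at hn
  exact (lcan hn).symm

theorem compl : ∃ S : Set Q, IsSubloop S ∧ S ≠ Set.univ ∧ ∀ x, ∃ y ∈ S, X.f y = X.f x := by
  have := Fact.mk T.ey.prime
  have hE := T.normal
  have ex : ∀ P, Pack X.W (X.E Y) p P → ∀ y, ∃ z ∈ X.S P, X.f z = X.f y := fun P hP y => by
    obtain ⟨z, h1, h2⟩ := X.exists_fix (P := P ⊓ (MulAction.stabilizer (Γ K) (X.f y)).comap
      (ind X.f_mul X.f_surj)) (hP.pg.to_le inf_le_left) (mt (T.ex.dvd T.ey.prime).1 T.ne) y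
      fun g hg => (ind_smul _ _ g y).symm.trans hg.2
    exact ⟨z, fun ρ hρ e => h2 ρ ⟨hρ, (ind_smul _ _ ρ y).trans
      ((X.f_mul.congr ρ h1.symm).trans (e.trans h1))⟩, h1⟩
  obtain ⟨P₀, hP₀⟩ := exists_pack X.W (X.E Y) fun g hg => T.pow_mem hg
  obtain ⟨s, hs, fs⟩ := ex P₀ hP₀ 1
  obtain ⟨P, hP, h0⟩ := hP₀.conj (L s)
  have h1 : 1 ∈ X.S P := Li_self s ▸ S_smul (by simpa using h0) hs
  have un : ∀ y ∈ X.S P, ∀ z ∈ X.S P, X.f z = X.f y → z = y := fun y hy z hz e => by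
    obtain ⟨n, rfl⟩ := X.eq_left e
    rw [hU n fun g hg g1 => ?_, X.ι_one, lone]
    obtain ⟨ρ, hρ, hw⟩ := hP.cover _ (hE.conj_mem _ hg.1 (R y))
    have e1 : (R y * g * (R y)⁻¹) • y = y := by rw [mul_smul, mul_smul, Ri_self, g1, R_smul, lone]
    have e2 : X.f (ρ⁻¹ • y) = X.f y := by
      conv_lhs => rw [← e1, ← mul_smul]
      exact X.mem_W.1 hw y
    have e3 := hy _ (inv_mem hρ) e2
    have e4 := hz _ (inv_mem hρ) ((X.f_mul.congr _ e).trans (e2.trans e.symm))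
    have e5 := T.wfix hw (by rw [mul_smul, e1, e3]) e
    rw [mul_smul, inv_smul_eq_iff, inv_smul_eq_iff.1 e4 |>.symm, mul_smul, mul_smul, Ri_mul,
      R_smul] at e5
    exact rcan e5
  have lemA : ∀ γ : Γ Q, (∀ s ∈ X.S P, X.c Y s = 1 → γ • s ∈ X.S P) → ∀ s ∈ X.S P,
      γ • s ∈ X.S P := fun γ hγ s hs => by
    obtain ⟨ν, n1, n2⟩ := hP.frat γ
    have := T.D_one hU (d := ν⁻¹ * γ) ⟨n2, fun z hz => by
      obtain ⟨t, ht, e⟩ := ex P hP z
      refine T.wfix n2 (un t ht _ ?_ (X.mem_W.1 n2 t)) e.symm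
      rw [mul_smul]
      exact S_smul (fun ρ hρ => by simpa using (n1 ρ).1 hρ) (hγ t ht ((X.c_eq Y e).trans hz))⟩
    rw [← inv_mul_eq_one.1 this]
    exact S_smul (fun ρ hρ => (n1 _).2 (by simpa [mul_assoc] using hρ)) hs
  have mm : ∀ s ∈ X.S P, X.c Y s = 1 → ∀ t ∈ X.S P, X.c Y t = 1 → R s • t ∈ X.S P :=
    fun s hs cs t ht ct ρ hρ e => by
      have e1 := h1 ρ hρ (T.fixf (hP.le hρ) e (by rw [R_smul, X.c_mul, cs, ct, lone, X.c_one]))
      rw [R_smul, aut e1,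
        hs ρ hρ (T.fixf (hP.le hρ) (congrArg X.f e1) (cs.trans (X.c_one Y).symm)),
        ht ρ hρ (T.fixf (hP.le hρ) (congrArg X.f e1) (ct.trans (X.c_one Y).symm))]
  refine ⟨X.S P, sub_of_mul h1 fun a ha => lemA (L a) fun s hs cs => lemA (R s) (mm s hs cs) a ha,
    fun h => ?_, ex P hP⟩
  have := T.ex.nt
  obtain ⟨n, hn⟩ := exists_ne (1 : N)
  exact hn (X.ι_inj ((un 1 h1 _ (h ▸ Set.mem_univ _) ((X.f_ι n).trans X.f_mul.one.symm)).trans
    X.ι_one.symm))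

end Two

theorem caseA (ex : X.Elem q) (ey : Y.Elem p) (ne : p ≠ q) :
    (∃ S : Set Q, IsSubloop S ∧ S ≠ Set.univ ∧ ∀ x, ∃ y ∈ S, X.f y = X.f x) ∨
      ∃ S : Set Q, IsNormal S ∧ S ≠ {1} ∧ ∃ j, S.ncard = p ^ j := by
  rcases ex.le_or with h | h
  · have T : X.Two Y q p := ⟨ex, ey, ne, h⟩
    exact T.dichotomy.imp T.compl T.central
  · exact Or.inl h

end Ext

end

end Pool.Agent.ALoop
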