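import Mathlib

/-! Automorphic loops: definitions used in the statement. -/

namespace Pool.Agent.ALoop

variable (Q : Type) [Mul Q] [One Q]

/-- The multiplication group, generated by all left and right translations. -/
def mlt : Subgroup (Equiv.Perm Q) :=
  Subgroup.closure {σ | ∃ a : Q, (∀ x, σ x = a * x) ∨ ∀ x, σ x = x * a}

/-- `Q` is a loop all of whose inner mappings are automorphisms. -/
class IsALoop : Prop where
  one_mul : ∀ a : Q, 1 * a = a
  mul_one : ∀ a : Q, a * 1 = a
  left : ∀ a b : Q, ∃! x, a * x = b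
  right : ∀ a b : Q, ∃! y, y * a = b
  aut : ∀ φ ∈ mlt Q, φ 1 = 1 → ∀ x y, φ (x * y) = φ x * φ y

variable {Q}

/-- `S` contains `1` and is closed under multiplication and both divisions. -/
class IsSubloop (S : Set Q) : Prop where
  one_mem : 1 ∈ S
  mul_mem : ∀ a ∈ S, ∀ b ∈ S, a * b ∈ S
  ldiv_mem : ∀ a ∈ S, ∀ b ∈ S, ∀ x, a * x = b → x ∈ S
  rdiv_mem : ∀ a ∈ S, ∀ b ∈ S, ∀ y, y * a = b → y ∈ S

/-- A normal subloop is a subloop invariant under all inner mappings. -/
def IsNormal (S : Set Q) : Prop :=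
  IsSubloop S ∧ ∀ φ ∈ mlt Q, φ 1 = 1 → ∀ x ∈ S, φ x ∈ S

variable (Q)

/-- `Q` is nontrivial and has no normal subloop except `{1}` and `Q`. -/
def IsSimple : Prop :=
  Nontrivial Q ∧ ∀ S : Set Q, IsNormal S → S = {1} ∨ S = Set.univ

/-- `Q` has a subloop whose order is the largest power of `p` dividing the order of `Q`. -/
def HasSylow (p : ℕ) : Prop :=
  ∃ S : Set Q, IsSubloop S ∧ S.ncard = p ^ (Nat.card Q).factorization p

/-- `S` is a homomorphic image of a subloop of `Q`. -/
def IsSection (S : Type) [Mul S] : Prop :=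
  ∃ (B : Set Q) (f : Q → S), IsSubloop B ∧ (∀ x ∈ B, ∀ y ∈ B, f (x * y) = f x * f y) ∧
    f '' B = Set.univ

end Pool.Agent.ALoop
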