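import Pool.Agent.P.MP_b7c14b_al.Quot

/-! A normal subloop which is a group: coordinates on the cosets and fixed points. -/

namespace Pool.Agent.ALoop

noncomputable section

/-- An exact sequence `G → Q → K` with `G` a group. -/
structure Ext (G Q K : Type) [Group G] [Mul Q] [One Q] [Mul K] [One K] where
  ι : G → Q
  f : Q → K
  ι_mul : IsHom ι
  ι_inj : Function.Injective ι
  ι_one : ι 1 = 1
  f_mul : IsHom f
  f_surj : Function.Surjective f
  ker : ∀ x, f x = 1 ↔ ∃ n, ι n = x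

theorem isPGroup_of_prime {H : Type} [Group H] [Finite H] {P : Subgroup H} {p : ℕ} [Fact p.Prime]
    (h : ∀ g ∈ P, ∀ r : ℕ, r.Prime → r ≠ p → g ^ r = 1 → g = 1) : IsPGroup p P := by
  rw [IsPGroup.iff_card]
  refine ⟨_, Nat.eq_prime_pow_of_unique_prime_dvd Nat.card_pos.ne' fun {r} hr hd => ?_⟩
  by_contra hne
  have := Fact.mk hr
  obtain ⟨g, hg⟩ := exists_prime_orderOf_dvd_card' r hd
  have h1 : g = 1 := Subtype.ext (h g g.2 r hr hne (by
    rw [← Subgroup.coe_pow, ← hg, pow_orderOf_eq_one, Subgroup.coe_one]))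
  rw [h1, orderOf_one] at hg
  exact hr.one_lt.ne hg

theorem isPGroup_zpowers {H : Type} [Group H] {g : H} {r : ℕ} (h : g ^ r = 1) :
    IsPGroup r (Subgroup.zpowers g) := by
  rintro ⟨_, n, rfl⟩
  refine ⟨1, Subtype.ext ?_⟩
  simp only [pow_one, SubgroupClass.coe_pow, OneMemClass.coe_one]
  rw [← zpow_natCast, ← zpow_mul, mul_comm, zpow_mul, zpow_natCast, h, one_zpow]

theorem eq_one_of_primes {H : Type} [Group H] {g : H} {p q : ℕ} (hp : p.Prime) (hq : q.Prime)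
    (hne : p ≠ q) (h1 : g ^ p = 1) (h2 : g ^ q = 1) : g = 1 := by
  rw [← pow_one g, ← (Nat.coprime_primes hp hq).2 hne]
  exact pow_gcd_eq_one.2 ⟨h1, h2⟩

namespace Ext

variable {G Q K : Type} [Group G] [Mul Q] [One Q] [IsALoop Q] [Mul K] [One K] [IsALoop K]
  (X : Ext G Q K)

omit [IsALoop Q] [IsALoop K] in
theorem f_ι (n : G) : X.f (X.ι n) = 1 := (X.ker _).2 ⟨n, rfl⟩

omit [IsALoop Q] in
theorem f_left (n : G) (y : Q) : X.f (X.ι n * y) = X.f y := by rw [X.f_mul, f_ι, lone]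

omit [IsALoop Q] in
theorem f_right (n : G) (y : Q) : X.f (y * X.ι n) = X.f y := by rw [X.f_mul, f_ι, rone]

theorem eq_left {x y : Q} (h : X.f x = X.f y) : ∃ n, x = X.ι n * y := by
  obtain ⟨z, rfl⟩ := rex y x
  obtain ⟨n, rfl⟩ := (X.ker z).1 (rcan (a := X.f y) (by rw [← X.f_mul, h, lone]))
  exact ⟨n, rfl⟩

theorem eq_right {x y : Q} (h : X.f x = X.f y) : ∃ n, x = y * X.ι n := by
  obtain ⟨z, rfl⟩ := lex y x
  obtain ⟨n, rfl⟩ := (X.ker z).1 (lcan (a := X.f y) (by rw [← X.f_mul, h, rone]))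
  exact ⟨n, rfl⟩

omit [IsALoop K] in
theorem can_left {n m : G} {y : Q} (h : X.ι n * y = X.ι m * y) : n = m := X.ι_inj (rcan h)

omit [IsALoop K] in
theorem can_right {n m : G} {y : Q} (h : y * X.ι n = y * X.ι m) : n = m := X.ι_inj (lcan h)

theorem norm {h : Γ Q} (h1 : h • (1 : Q) = 1) (x : G) : ∃ y, X.ι y = h • X.ι x :=
  (X.ker _).1 (by rw [← X.ι_one] at h1; rw [X.f_mul.congr h ((X.f_ι x).trans (X.f_ι 1).symm), h1,
    X.f_ι])

theorem res {h : Γ Q} (h1 : h • (1 : Q) = 1) : ∃ α : MulAut G, ∀ x, h • X.ι x = X.ι (α x) := by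
  choose a ha using X.norm h1
  choose b hb using X.norm (inv_fix h1)
  refine ⟨⟨⟨a, b, fun x => X.ι_inj ?_, fun x => X.ι_inj ?_⟩, fun x y => X.ι_inj ?_⟩,
    fun x => (ha x).symm⟩
  · rw [hb, ha, inv_smul_smul]
  · rw [ha, hb, smul_inv_smul]
  · change X.ι (a (x * y)) = X.ι (a x * a y)
    rw [X.ι_mul, ha, ha, ha, X.ι_mul, aut h1]

theorem coordL (g : Γ Q) (b : Q) :
    ∃ α : MulAut G, ∀ x, g • (X.ι x * b) = X.ι (α x) * g • b := by
  obtain ⟨α, hα⟩ := X.res (h := (R (g • b))⁻¹ * g * R b)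
    (by rw [mul_smul, mul_smul, R_smul, lone, Ri_self])
  exact ⟨α, fun x => by rw [← hα, mul_smul, mul_smul, R_smul, mul_Ri]⟩

/-- The image of `G` is a minimal normal subloop. -/
def Min : Prop :=
  ∀ U : Subgroup G, (∀ h : Γ Q, h • (1 : Q) = 1 → ∀ x ∈ U, ∀ y, h • X.ι x = X.ι y → y ∈ U) →
    U = ⊥ ∨ U = ⊤

theorem Min.char {X : Ext G Q K} (hm : X.Min) (U : Subgroup G)
    (hU : ∀ α : MulAut G, ∀ x ∈ U, α x ∈ U) : U = ⊥ ∨ U = ⊤ := by
  refine hm U fun h h1 x hx y e => ?_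
  obtain ⟨α, hα⟩ := X.res h1
  rw [← X.ι_inj ((hα x).symm.trans e)]
  exact hU α x hx

theorem card_fibre (y : Q) : Nat.card {z : Q // X.f z = X.f y} = Nat.card G := by
  symm
  refine Nat.card_congr (Equiv.ofBijective (fun n => ⟨X.ι n * y, X.f_left n y⟩)
    ⟨fun n m h => X.can_left (congrArg Subtype.val h), fun z => ?_⟩)
  obtain ⟨n, hn⟩ := X.eq_left z.2
  exact ⟨n, Subtype.ext hn.symm⟩

/-- A fibre as a set with an action. -/
def fib (P : Subgroup (Γ Q)) (y : Q) (hy : ∀ g ∈ P, X.f (g • y) = X.f y) : SubMulAction P Q where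
  carrier := {z | X.f z = X.f y}
  smul_mem' g _ hz := (X.f_mul.congr g.1 hz).trans (hy g g.2)

theorem exists_fix {P : Subgroup (Γ Q)} {r : ℕ} [Fact r.Prime] (hP : IsPGroup r P)
    (hr : ¬ r ∣ Nat.card G) (y : Q) (hy : ∀ g ∈ P, X.f (g • y) = X.f y) :
    ∃ z, X.f z = X.f y ∧ ∀ g ∈ P, g • z = z := by
  obtain ⟨z, hz⟩ := hP.nonempty_fixed_point_of_prime_not_dvd_card (X.fib P y hy)
    (by rwa [← X.card_fibre y] at hr)
  exact ⟨z, z.2, fun g hg => congrArg Subtype.val (hz ⟨g, hg⟩)⟩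

/-- The elements of `G` fixed by a set of inner mappings. -/
def fixU (P : Set (Γ Q)) (hP : ∀ g ∈ P, g • (1 : Q) = 1) : Subgroup G where
  carrier := {x | ∀ g ∈ P, g • X.ι x = X.ι x}
  one_mem' g hg := by rw [X.ι_one, hP g hg]
  mul_mem' {a b} ha hb g hg := by rw [X.ι_mul, aut (hP g hg), ha g hg, hb g hg]
  inv_mem' {a} ha g hg := lcan (a := X.ι a) (by
    conv_lhs => rw [← ha g hg, ← aut (hP g hg)]
    rw [← X.ι_mul, mul_inv_cancel, X.ι_one, hP g hg])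

omit [IsALoop K] in
theorem Min.fixU {X : Ext G Q K} (hm : X.Min) {P : Set (Γ Q)} (hP : ∀ g ∈ P, g • (1 : Q) = 1)
    (hn : ∀ h : Γ Q, h • (1 : Q) = 1 → ∀ g ∈ P, h⁻¹ * g * h ∈ P) :
    X.fixU P hP = ⊥ ∨ X.fixU P hP = ⊤ := by
  refine hm _ fun h h1 x hx y e g hg => ?_
  have := hx _ (hn h h1 g hg)
  rwa [mul_smul, mul_smul, inv_smul_eq_iff, e] at this

theorem Min.fix_all [Finite G] {X : Ext G Q K} (hm : X.Min) {P : Subgroup (Γ Q)} {r : ℕ}
    [Fact r.Prime] (hP : IsPGroup r P) (hr : r ∣ Nat.card G) (h1 : ∀ g ∈ P, g • (1 : Q) = 1)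
    (hn : ∀ h : Γ Q, h • (1 : Q) = 1 → ∀ g ∈ P, h⁻¹ * g * h ∈ P) :
    ∀ g ∈ P, ∀ x, g • X.ι x = X.ι x := by
  have hy : ∀ g ∈ P, X.f (g • (1 : Q)) = X.f 1 := fun g hg => by rw [h1 g hg]
  have : Finite (X.fib P 1 hy) := Nat.finite_of_card_ne_zero
    (by rw [show Nat.card (X.fib P 1 hy) = _ from X.card_fibre 1]; exact Nat.card_pos.ne')
  obtain ⟨z, hz, hne⟩ := hP.exists_fixed_point_of_prime_dvd_card_of_fixed_point (X.fib P 1 hy)
    (by rwa [← X.card_fibre 1] at hr) (a := ⟨1, rfl⟩) fun g => Subtype.ext (h1 g g.2)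
  obtain ⟨n, hn'⟩ := (X.ker z).1 (z.2.trans X.f_mul.one)
  rcases hm.fixU (P := P) h1 hn with h | h
  · have : n ∈ X.fixU P h1 := fun g hg => by
      rw [hn']
      exact congrArg Subtype.val (hz ⟨g, hg⟩)
    rw [h, Subgroup.mem_bot] at this
    rw [this, X.ι_one] at hn'
    exact absurd (Subtype.ext hn') hne
  · intro g hg x
    exact (h ▸ Subgroup.mem_top x : x ∈ X.fixU P h1) g hg

/-- An inner mapping of prime order prime to `|G|` which fixes all cosets has a fixed point in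
every coset. -/
theorem fix_coset {g : Γ Q} {r : ℕ} (hr : r.Prime) (hd : ¬ r ∣ Nat.card G) (hg : g ^ r = 1)
    (hf : ∀ y, X.f (g • y) = X.f y) (y : Q) : ∃ z, X.f z = X.f y ∧ g • z = z := by
  have := Fact.mk hr
  obtain ⟨z, h1, h2⟩ := X.exists_fix (isPGroup_zpowers hg) hd y fun k hk =>
    (mem_ker_ind X.f_mul X.f_surj).1
      (Subgroup.zpowers_le.2 ((mem_ker_ind X.f_mul X.f_surj).2 hf) hk) y
  exact ⟨z, h1, h2 g (Subgroup.mem_zpowers g)⟩

include X in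
theorem card : Nat.card Q = Nat.card G * Nat.card K := by
  rw [X.f_mul.card X.f_surj, ← X.card_fibre 1, X.f_mul.one]
  rfl

end Ext

end

end Pool.Agent.ALoop
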