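import Pool.Agent.P.MP_b7c14b_al.Ext

/-! A perfect centreless normal subgroup lies in the nucleus; the Frattini argument. -/

namespace Pool.Agent.ALoop

open scoped commutatorElement

noncomputable section

theorem heap {G : Type} [Group G] (μ : G → G → G) (hc : Subgroup.center G = ⊥)
    (hp : commutator G = ⊤) (a1 : ∀ u, ∃ α : MulAut G, ∀ v, μ u v = u * α v)
    (a2 : ∀ v, ∃ β : MulAut G, ∀ u, μ u v = β u * v)
    (h3 : ∀ (H : Type) [Group H] (φ : G →* H), (∀ w v, φ (μ w v) = φ v * φ w) →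
      ∀ u v, ∃ c : H, φ v * φ u = c * (φ u * φ v) ∧ ∀ z, Commute c (φ z)) (u v : G) :
    μ u v = u * v := by
  have h1 : ∀ u v z, μ u (v * z) = μ u v * u⁻¹ * μ u z := fun u v z => by
    obtain ⟨α, h⟩ := a1 u
    simp only [h, map_mul]
    group
  have h2 : ∀ u w v, μ (u * w) v = μ u v * v⁻¹ * μ w v := fun u w v => by
    obtain ⟨α, h⟩ := a2 v
    simp only [h, map_mul]
    group
  have hXY : ∀ u z w v, (u⁻¹ * μ u z * z⁻¹) * (v⁻¹ * μ w v * w⁻¹) =
      (v⁻¹ * μ w v * w⁻¹) * (u⁻¹ * μ u z * z⁻¹) := fun u z w v => by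
    have e := (h2 u w (v * z)).symm.trans (h1 (u * w) v z)
    rw [h1, h1, h2, h2] at e
    calc _ = (μ u v)⁻¹ * (μ u v * u⁻¹ * μ u z * (v * z)⁻¹ * (μ w v * w⁻¹ * μ w z)) *
          (μ w z)⁻¹ := by group
      _ = _ := by rw [e]; group
  let C : Subgroup G := Subgroup.centralizer {x | ∃ u z, x = u⁻¹ * μ u z * z⁻¹}
  have hC : C.Normal := ⟨fun y hy g => by
    rintro _ ⟨u, z, rfl⟩
    have e1 := hy _ ⟨u * g, z, rfl⟩
    have e2 := hy _ ⟨g, z, rfl⟩
    have e3 : Commute (((u * g)⁻¹ * μ (u * g) z * z⁻¹) * (g⁻¹ * μ g z * z⁻¹)⁻¹) y :=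
      Commute.mul_left e1 (Commute.inv_left e2)
    rw [h2] at e3
    calc _ = g * (((u * g)⁻¹ * (μ u z * z⁻¹ * μ g z) * z⁻¹) * (g⁻¹ * μ g z * z⁻¹)⁻¹ * y) * g⁻¹ := by
          group
      _ = _ := by rw [e3.eq]; group⟩
  let φ := QuotientGroup.mk' C
  have hφ : ∀ w v, φ (μ w v) = φ v * φ w := fun w v => by
    have : φ (v⁻¹ * μ w v * w⁻¹) = 1 := (QuotientGroup.eq_one_iff _).2 (by
      rintro _ ⟨u, z, rfl⟩
      exact hXY u z w v)
    rw [map_mul, map_mul, map_inv, map_inv, mul_inv_eq_one, inv_mul_eq_iff_eq_mul] at this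
    exact this
  have h4 : commutator G ≤ (Subgroup.center (G ⧸ C)).comap φ := by
    rw [commutator_def, Subgroup.commutator_le]
    intro v _ u _
    obtain ⟨c, e, hc⟩ := h3 _ φ hφ u v
    rw [Subgroup.mem_comap, Subgroup.mem_center_iff]
    intro z
    obtain ⟨z, rfl⟩ := QuotientGroup.mk'_surjective C z
    have : φ ⁅v, u⁆ = c := by
      rw [map_commutatorElement, commutatorElement_def, e]
      group
    rw [this]
    exact (hc z).symm
  have h5 : commutator G ≤ C := by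
    rw [commutator_def, Subgroup.commutator_le]
    intro v _ u _
    rw [← QuotientGroup.eq_one_iff]
    change φ ⁅v, u⁆ = 1
    rw [map_commutatorElement, commutatorElement_eq_one_iff_mul_comm]
    exact Subgroup.mem_center_iff.1 (h4 (hp ▸ Subgroup.mem_top u)) _
  have h6 : u⁻¹ * μ u v * v⁻¹ ∈ Subgroup.center G := Subgroup.mem_center_iff.2 fun g =>
    (h5 (hp ▸ Subgroup.mem_top g) _ ⟨u, v, rfl⟩).symm
  rw [hc, Subgroup.mem_bot, mul_inv_eq_one, inv_mul_eq_iff_eq_mul] at h6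
  exact h6

namespace Ext

variable {G Q K : Type} [Group G] [Mul Q] [One Q] [IsALoop Q] [Mul K] [One K] [IsALoop K]
  (X : Ext G Q K) (hc : Subgroup.center G = ⊥) (hp : commutator G = ⊤)

include hc hp

theorem assocL (b : Q) (u v : G) : X.ι u * (X.ι v * b) = X.ι (u * v) * b := by
  choose μ hμ using fun u v : G =>
    X.eq_left (x := X.ι u * (X.ι v * b)) (y := b) (by rw [X.f_left, X.f_left])
  rw [hμ, heap μ hc hp (fun u => ?_) (fun v => ?_) fun H _ φ hφ u v => ?_]
  · obtain ⟨α, h⟩ := X.res (h := (L (X.ι u))⁻¹ * (R b)⁻¹ * L (X.ι u) * R b)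
      (by simp only [mul_smul, R_smul, L_smul, lone, Ri_mul, Li_self])
    refine ⟨α, fun v => X.ι_inj ?_⟩
    have := h v
    simp only [mul_smul, R_smul, L_smul, hμ, Ri_mul, inv_smul_eq_iff] at this
    rw [this, X.ι_mul]
  · obtain ⟨α, h⟩ := X.res (h := (R (X.ι v))⁻¹ * (R b)⁻¹ * R (X.ι v * b))
      (by simp only [mul_smul, R_smul, lone, Ri_mul, Ri_self])
    refine ⟨α, fun u => X.ι_inj ?_⟩
    have := h u
    simp only [mul_smul, R_smul, hμ, Ri_mul, inv_smul_eq_iff] at this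
    rw [this, X.ι_mul]
  · set k := (L (X.ι (u * v)))⁻¹ * L (X.ι u) * L (X.ι v) with hk
    have k0 : ∀ y, X.ι (u * v) * k • y = X.ι u * (X.ι v * y) := fun y => by
      simp only [hk, mul_smul, L_smul, mul_Li]
    have k1 : ∀ z, k • X.ι z = X.ι z := fun z => lcan (by
      rw [k0, ← X.ι_mul, ← X.ι_mul, ← X.ι_mul, mul_assoc])
    obtain ⟨c, k2⟩ := X.eq_left (x := k • b) (y := b) (by
      rw [← X.f_left (u * v), k0, X.f_left, X.f_left])
    have k3 : ∀ z, φ z * φ v * φ u = φ c * φ z * (φ u * φ v) := fun z => by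
      have := k0 (X.ι z * b)
      rw [aut (X.ι_one ▸ k1 1), k1, k2, hμ, hμ, hμ, hμ] at this
      have := congrArg φ (X.can_left this)
      rw [hφ, hφ, hφ, hφ, map_mul] at this
      exact this.symm
    have k4 := k3 1
    rw [map_one, one_mul, mul_one] at k4
    refine ⟨φ c, k4, fun z => mul_right_cancel (b := φ u * φ v) ?_⟩
    rw [← k3, mul_assoc, k4, mul_assoc]

theorem assocR (b : Q) (u v : G) : b * X.ι u * X.ι v = b * X.ι (u * v) := by
  choose μ hμ using fun u v : G =>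
    X.eq_right (x := b * X.ι u * X.ι v) (y := b) (by rw [X.f_right, X.f_right])
  rw [hμ, heap μ hc hp (fun u => ?_) (fun v => ?_) fun H _ φ hφ u v => ?_]
  · obtain ⟨α, h⟩ := X.res (h := (L (X.ι u))⁻¹ * (L b)⁻¹ * L (b * X.ι u))
      (by simp only [mul_smul, L_smul, rone, Li_mul, Li_self])
    refine ⟨α, fun v => X.ι_inj ?_⟩
    have := h v
    simp only [mul_smul, L_smul, hμ, Li_mul, inv_smul_eq_iff] at this
    rw [this, X.ι_mul]
  · obtain ⟨α, h⟩ := X.res (h := (R (X.ι v))⁻¹ * (L b)⁻¹ * R (X.ι v) * L b)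
      (by simp only [mul_smul, R_smul, L_smul, rone, Li_mul, Ri_self])
    refine ⟨α, fun u => X.ι_inj ?_⟩
    have := h u
    simp only [mul_smul, R_smul, L_smul, hμ, Li_mul, inv_smul_eq_iff] at this
    rw [this, X.ι_mul]
  · set k := (R (X.ι (u * v)))⁻¹ * R (X.ι v) * R (X.ι u) with hk
    have k0 : ∀ y, k • y * X.ι (u * v) = y * X.ι u * X.ι v := fun y => by
      simp only [hk, mul_smul, R_smul, mul_Ri]
    have k1 : ∀ z, k • X.ι z = X.ι z := fun z => rcan (by
      rw [k0, ← X.ι_mul, ← X.ι_mul, ← X.ι_mul, mul_assoc])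
    obtain ⟨c, k2⟩ := X.eq_right (x := k • b) (y := b) (by
      rw [← X.f_right (u * v), k0, X.f_right, X.f_right])
    have k3 : ∀ z, φ v * (φ u * φ z) = φ u * φ v * (φ z * φ c) := fun z => by
      have := k0 (b * X.ι z)
      rw [aut (X.ι_one ▸ k1 1), k1, k2, hμ, hμ, hμ, hμ] at this
      have := congrArg φ (X.can_right this)
      rw [hφ, hφ, hφ, hφ, map_mul] at this
      exact this.symm
    have k4 := k3 1
    rw [map_one, one_mul, mul_one] at k4
    have k5 : ∀ z, Commute (φ c) (φ z) := fun z => mul_left_cancel (a := φ u * φ v) (by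
      rw [← k3, ← mul_assoc, ← k4, mul_assoc])
    exact ⟨φ c, by rw [k4, ← map_mul, (k5 _).eq], k5⟩

theorem global (g : Γ Q) (n : G) : ∃ n', ∀ y, g • (X.ι n * y) = X.ι n' * g • y := by
  obtain ⟨α, hα⟩ := X.coordL g (g⁻¹ • 1)
  refine ⟨α n, fun y => ?_⟩
  set k := (L (X.ι (α n)))⁻¹ * g * L (X.ι n) * g⁻¹ with hk
  have k0 : ∀ y, X.ι (α n) * k • g • y = g • (X.ι n * y) := fun y => by
    simp only [hk, mul_smul, L_smul, mul_Li, inv_smul_smul]
  have k1 : ∀ x, k • X.ι x = X.ι x := fun x => by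
    obtain ⟨x, rfl⟩ := α.surjective x
    have := k0 (X.ι x * g⁻¹ • 1)
    rw [X.assocL hc hp, hα, hα, smul_inv_smul, rone, rone, map_mul, X.ι_mul] at this
    exact lcan this
  obtain ⟨β, hβ⟩ := X.coordL g y
  have k2 : ∀ x, k • (X.ι (β x) * g • y) = X.ι ((α n)⁻¹ * β n * β x) * g • y := fun x =>
    lcan (a := X.ι (α n)) (by
      rw [← hβ, k0, X.assocL hc hp, X.assocL hc hp, hβ, map_mul, mul_assoc, mul_inv_cancel_left])
  have k3 := k2 1
  rw [map_one, mul_one, X.ι_one, lone] at k3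
  have k4 : (α n)⁻¹ * β n ∈ Subgroup.center G := Subgroup.mem_center_iff.2 fun x => by
    obtain ⟨x, rfl⟩ := β.surjective x
    have := k2 x
    rw [aut (X.ι_one ▸ k1 1), k1, k3, X.assocL hc hp] at this
    exact X.can_left this
  rw [hc, Subgroup.mem_bot, inv_mul_eq_one] at k4
  rw [hβ, k4]

theorem exists_tau : ∃ τ : Q → MulAut G, (∀ a b, τ (a * b) = τ a * τ b) ∧
    ∀ n, τ (X.ι n) = MulAut.conj n := by
  choose τ hτ using fun a : Q => X.res (h := (R a)⁻¹ * L a)
    (by rw [mul_smul, L_smul, rone, Ri_self])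
  have t1 : ∀ a x, a * X.ι x = X.ι (τ a x) * a := fun a x => by
    rw [← hτ, mul_smul, L_smul, mul_Ri]
  have mid : ∀ u b w, X.ι u * b * X.ι w = X.ι u * (b * X.ι w) := fun u b w => by
    obtain ⟨u, rfl⟩ := (τ b).surjective u
    rw [← t1, X.assocR hc hp, t1, t1, X.assocL hc hp, map_mul]
  have g1 : ∀ n a b, X.ι n * a * b = X.ι n * (a * b) := fun n a b => by
    obtain ⟨n', h⟩ := X.global hc hp (R b) n
    have := h 1
    rw [rone, R_smul, R_smul, lone] at this
    rw [rcan this]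
    rw [rcan this] at h
    exact h a
  have g2 : ∀ a n y, a * (X.ι n * y) = X.ι (τ a n) * (a * y) := fun a n y => by
    obtain ⟨n', h⟩ := X.global hc hp (L a) n
    have := h 1
    rw [rone, L_smul, L_smul, rone, t1] at this
    rw [rcan this]
    exact h y
  refine ⟨τ, fun a b => MulEquiv.ext fun n => ?_, fun n => MulEquiv.ext fun x => ?_⟩
  · have T : ∀ y, ((R (X.ι n))⁻¹ * L (X.ι n)) • y = X.ι (n * (τ y n)⁻¹) * y := fun y => by
      rw [mul_smul, inv_smul_eq_iff, L_smul, R_smul, mid, t1, X.assocL hc hp, inv_mul_cancel_right]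
    have := aut (g := (R (X.ι n))⁻¹ * L (X.ι n)) (by rw [mul_smul, L_smul, rone, Ri_self]) a b
    rw [T, T, T, g1, g2, X.assocL hc hp, map_mul, map_inv] at this
    have := X.can_left this
    rw [mul_assoc, mul_right_inj, inv_mul_cancel_left, inv_inj] at this
    exact this
  · have := t1 (X.ι n) x
    rw [← X.ι_mul, ← X.ι_mul] at this
    rw [MulAut.conj_apply, X.ι_inj this, mul_inv_cancel_right]

theorem frattini [Finite Q] (hm : X.Min) {r : ℕ} (hr : r.Prime) (hd : r ∣ Nat.card G) :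
    ∃ S : Set Q, IsSubloop S ∧ S ≠ Set.univ ∧ (∀ x, ∃ y ∈ S, X.f y = X.f x) ∧
      ∃ U : Subgroup G, (∀ n, X.ι n ∈ S ↔ n ∈ U) ∧
        (Nat.card U).factorization r = (Nat.card G).factorization r := by
  have := Fact.mk hr
  have : Finite G := Finite.of_injective _ X.ι_inj
  obtain ⟨τ, t1, t2⟩ := X.exists_tau hc hp
  obtain ⟨P⟩ : Nonempty (Sylow r G) := inferInstance
  have t0 : τ 1 = 1 := by rw [← X.ι_one, t2, map_one]
  have hU : ∀ n, τ (X.ι n) • P = P ↔ n ∈ MulAction.stabilizer G P := fun n => by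
    rw [t2]
    rfl
  refine ⟨{c | τ c • P = P}, sub_of_mul (by simp [t0]) fun a ha b hb => ?_, fun h => ?_,
    fun x => ?_, MulAction.stabilizer G P, hU, ?_⟩
  · change τ (a * b) • P = P
    rw [t1, mul_smul, hb, ha]
  · have hn : (P : Subgroup G).Normal := by
      rw [← Subgroup.normalizer_eq_top_iff, eq_top_iff]
      intro n _
      exact Sylow.smul_eq_iff_mem_normalizer.1 ((hU n).1 (h ▸ Set.mem_univ (X.ι n) :
        X.ι n ∈ {c | τ c • P = P}))
    have hch := P.characteristic_of_normal hn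
    rcases hm.char P (fun α x hx => Subgroup.characteristic_iff_le_comap.1 hch α hx) with h1 | h1
    · exact P.ne_bot_of_dvd_card hd h1
    · have h2 : IsPGroup r G := (h1 ▸ P.isPGroup').of_equiv Subgroup.topEquiv
      have : Nontrivial G := Finite.one_lt_card_iff_nontrivial.1
        (hr.one_lt.trans_le (Nat.le_of_dvd Nat.card_pos hd))
      have h3 := h2.center_nontrivial
      rw [hc] at h3
      exact false_of_nontrivial_of_subsingleton (⊥ : Subgroup G)
  · obtain ⟨n, hn⟩ := MulAction.exists_smul_eq G (τ x • P) P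
    refine ⟨X.ι n * x, ?_, X.f_left n x⟩
    change τ (X.ι n * x) • P = P
    rw [t1, mul_smul, t2]
    exact hn
  · have h1 : (P : Subgroup G) ≤ MulAction.stabilizer G P := fun n hn =>
      Sylow.smul_eq_iff_mem_normalizer.2 (Subgroup.le_normalizer hn)
    have h2 := Subgroup.card_dvd_of_le h1
    rw [P.card_eq_multiplicity] at h2
    exact le_antisymm ((Nat.factorization_le_iff_dvd Nat.card_pos.ne' Nat.card_pos.ne').2
      (Subgroup.card_subgroup_dvd_card _) r)
      ((hr.pow_dvd_iff_le_factorization Nat.card_pos.ne').1 h2)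

end Ext

end

end Pool.Agent.ALoop
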