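import Pool.Agent.P.MP_b7c14b_al.Compl
import Pool.Agent.P.MP_b7c14b_al.NonAb

/-! Sylow subloops in finite automorphic loops whose simple sections are groups. -/

namespace Pool.Agent.ALoop

noncomputable section

/-- Every simple section is associative. -/
def Good (Q : Type) [Mul Q] [One Q] : Prop :=
  ∀ (S : Type) [Mul S] [One S], IsALoop S → IsSimple S → IsSection Q S →
    ∀ x y z : S, x * y * z = x * (y * z)

variable {Q : Type} [Mul Q] [One Q] [IsALoop Q]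

section

variable {A : Type} [Mul A] [One A] [IsALoop A]

theorem Good.inj (h : Good Q) {φ : A → Q} (hφ : IsHom φ) (hi : Function.Injective φ) : Good A := by
  rintro S _ _ h1 h2 ⟨B, f, hB, hf, hs⟩
  refine h S h1 h2 ⟨φ '' B, Function.extend φ f fun _ => 1, hφ.map hB, ?_, ?_⟩
  · rintro _ ⟨x, hx, rfl⟩ _ ⟨y, hy, rfl⟩
    rw [← hφ, hi.extend_apply, hi.extend_apply, hi.extend_apply, hf x hx y hy]
  · rw [Set.image_image]
    simpa only [hi.extend_apply] using hs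

theorem Good.surj (h : Good Q) {φ : Q → A} (hφ : IsHom φ) (hi : Function.Surjective φ) :
    Good A := by
  rintro S _ _ h1 h2 ⟨B, f, hB, hf, hs⟩
  refine h S h1 h2 ⟨φ ⁻¹' B, f ∘ φ, hφ.comap hB, fun x hx y hy => ?_, ?_⟩
  · rw [Function.comp_apply, hφ]
    exact hf _ hx _ hy
  · rw [Set.image_comp, Set.image_preimage_eq _ hi, hs]

theorem IsHom.card_sub {f : Q → A} (hf : IsHom f) {S : Set Q} (hS : IsSubloop S) :
    S.ncard = (S ∩ f ⁻¹' {1}).ncard * (f '' S).ncard := by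
  let g : Sb hS → Sb (hf.map hS) := fun x => ⟨f (Sb.val hS x), _, x.2, rfl⟩
  have h1 : IsHom g := fun x y => Sb.inj _ (hf _ _)
  rw [← Sb.card hS, ← Sb.card (hf.map hS), h1.card (by
    rintro ⟨_, x, hx, rfl⟩
    exact ⟨⟨x, hx⟩, rfl⟩), ← Set.ncard_image_of_injective _ (Sb.inj hS)]
  congr 2
  ext x
  constructor
  · rintro ⟨x, hx, rfl⟩
    exact ⟨x.2, congrArg (Sb.val _) hx⟩
  · rintro ⟨h2, h3⟩
    exact ⟨⟨x, h2⟩, Sb.inj _ h3, rfl⟩

end

variable [Finite Q]

theorem Good.exists_sub (h : Good Q) [Nontrivial Q] : ∃ T : Set Q, IsSubloop T ∧ T ≠ Set.univ ∧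
    ∀ x y z a, a * (x * (y * z)) = x * y * z → a ∈ T := by
  obtain ⟨M, ⟨hM, h1⟩, h2⟩ := exists_maximal_of_wellFoundedGT
    (fun M : Set Q => IsNormal M ∧ M ≠ Set.univ) ⟨{1}, normal_one, fun e => by
      obtain ⟨x, hx⟩ := exists_ne (1 : Q)
      exact hx (e.ge (Set.mem_univ x))⟩
  have h3 := h (Qt hM) inferInstance ⟨?_, fun S hS => ?_⟩ ⟨Set.univ, Qt.mk hM, sub_univ,
    fun x _ y _ => rfl, Set.image_univ_of_surjective (Qt.surj hM)⟩
  · refine ⟨M, hM.1, h1, fun x y z a e => (Qt.ker hM).1 (rcan (a := Qt.mk hM (x * (y * z))) ?_)⟩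
    rw [← Qt.hom, e, lone]
    exact h3 (Qt.mk hM x) (Qt.mk hM y) (Qt.mk hM z)
  · obtain ⟨x, hx⟩ := (Set.ne_univ_iff_exists_notMem M).1 h1
    exact ⟨Qt.mk hM x, 1, mt (Qt.ker hM).1 hx⟩
  · refine or_iff_not_imp_right.2 fun e => Set.eq_singleton_iff_unique_mem.2
      ⟨hS.1.one_mem, fun x hx => ?_⟩
    obtain ⟨x, rfl⟩ := Qt.surj hM x
    refine (Qt.ker hM).2 (h2 ⟨(Qt.hom hM).comap_normal hS, fun e' => e ?_⟩
      (fun y hy => ?_) hx)
    · rw [← Set.image_preimage_eq S (Qt.surj hM), e', Set.image_univ_of_surjective (Qt.surj hM)]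
    · rw [Set.mem_preimage, (Qt.ker hM).2 hy]
      exact hS.1.one_mem

theorem Good.exists_ext (h : Good Q) [Nontrivial Q] : ∃ (G : Type) (_ : Group G) (K : Type)
    (_ : Mul K) (_ : One K) (_ : IsALoop K) (X : Ext G Q K), X.Min ∧ Nontrivial G := by
  obtain ⟨N, ⟨hN, h1⟩, h2⟩ := exists_minimal_of_wellFoundedLT
    (fun M : Set Q => IsNormal M ∧ M ≠ {1}) ⟨Set.univ, normal_univ, fun e => by
      obtain ⟨x, hx⟩ := exists_ne (1 : Q)
      exact hx (e.le (Set.mem_univ x))⟩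
  obtain ⟨x₀, hx₀, hx₁⟩ : ∃ x ∈ N, x ≠ 1 := by
    by_contra! h3
    exact h1 (Set.eq_singleton_iff_unique_mem.2 ⟨hN.1.one_mem, h3⟩)
  have : Nontrivial (Sb hN.1) := ⟨⟨x₀, hx₀⟩, 1, fun e => hx₁ (congrArg (Sb.val _) e)⟩
  obtain ⟨T, t1, t2, t3⟩ := (h.inj (Sb.hom hN.1) (Sb.inj _)).exists_sub
  have t4 := (Sb.hom hN.1).map t1
  have t5 : {x | ∀ g : Γ Q, g • (1 : Q) = 1 → g • x ∈ Sb.val hN.1 '' T} = {1} := by
    by_contra e
    refine t2 (Set.eq_univ_of_forall fun x => ?_)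
    have := h2 (y := {x | ∀ g : Γ Q, g • (1 : Q) = 1 → g • x ∈ Sb.val hN.1 '' T})
      ⟨⟨sub_of_mul (fun g hg => hg.symm ▸ t4.one_mem) fun a ha b hb g hg => ?_,
      fun φ hφ e' x hx g hg => ?_⟩, e⟩ (fun x hx => ?_) x.2 1 (one_smul _ _)
    · exact (Sb.inj _).mem_set_image.1 this
    · rw [aut hg]
      exact t4.mul_mem _ (ha g hg) _ (hb g hg)
    · exact hx (g * ⟨φ, hφ⟩) (by rw [mul_smul, show (⟨φ, hφ⟩ : Γ Q) • (1 : Q) = 1 from e', hg])
    · obtain ⟨y, -, hy⟩ := hx 1 (one_smul _ _)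
      exact (hy.trans (one_smul _ _)) ▸ y.2
  obtain ⟨G, _, ι, i1, i2, i3, i4⟩ := exists_group hN.1 fun x hx y hy z hz => by
    obtain ⟨a, ha⟩ := rex (x * (y * z)) (x * y * z)
    have a1 : a ∈ N := hN.1.rdiv_mem _ (hN.1.mul_mem _ hx _ (hN.1.mul_mem _ hy _ hz)) _
      (hN.1.mul_mem _ (hN.1.mul_mem _ hx _ hy) _ hz) _ ha
    have a2 : a = 1 := t5.le fun g hg => ⟨⟨g • a, hN.smul hg a1⟩, t3 ⟨g • x, hN.smul hg hx⟩
      ⟨g • y, hN.smul hg hy⟩ ⟨g • z, hN.smul hg hz⟩ _ (Sb.inj _ (by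
        change g • a * (g • x * (g • y * g • z)) = g • x * g • y * g • z
        simp only [← aut hg, ha])), rfl⟩
    rw [← ha, a2, lone]
  have i5 : ∀ x, x ∈ N ↔ ∃ n, ι n = x := fun x => i4 ▸ Iff.rfl
  refine ⟨G, inferInstance, Qt hN, inferInstance, inferInstance, inferInstance,
    ⟨ι, Qt.mk hN, i1, i2, i3, Qt.hom hN, Qt.surj hN, fun x => (Qt.ker hN).trans (i5 x)⟩,
    fun U hU => or_iff_not_imp_left.2 fun e => eq_top_iff.2 fun n _ => ?_, ?_⟩
  · refine i2.mem_set_image.1 (h2 (y := ι '' U) ⟨⟨sub_of_mul ⟨1, one_mem U, i3⟩ ?_, ?_⟩,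
      fun e' => e (eq_bot_iff.2 fun m hm => i2 ((e'.le ⟨m, hm, rfl⟩).trans i3.symm))⟩ ?_
      ((i5 _).2 ⟨n, rfl⟩))
    · rintro _ ⟨a, ha, rfl⟩ _ ⟨b, hb, rfl⟩
      exact ⟨a * b, U.mul_mem ha hb, i1 a b⟩
    · rintro φ hφ e' _ ⟨a, ha, rfl⟩
      obtain ⟨b, hb⟩ := (i5 _).1 (hN.2 φ hφ e' _ ((i5 _).2 ⟨a, rfl⟩))
      exact ⟨b, hU ⟨φ, hφ⟩ e' a ha b hb.symm, hb⟩
    · rintro _ ⟨a, -, rfl⟩
      exact (i5 _).2 ⟨a, rfl⟩
  · obtain ⟨n, rfl⟩ := (i5 _).1 hx₀
    exact ⟨n, 1, fun e => hx₁ (e ▸ i3)⟩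

namespace Ext

variable {G K : Type} [Group G] [Mul K] [One K] [IsALoop K] {X : Ext G Q K}

omit [Finite Q] in
theorem Min.comm_or (hm : X.Min) :
    (∀ a b : G, a * b = b * a) ∨ Subgroup.center G = ⊥ ∧ commutator G = ⊤ := by
  refine or_iff_not_imp_left.2 fun h => ⟨?_, ?_⟩
  · refine (hm.char _ fun α x hx =>
      Subgroup.characteristic_iff_le_comap.1 inferInstance α hx).resolve_right fun e => h ?_
    exact fun a b => Subgroup.mem_center_iff.1 (e.ge (Subgroup.mem_top b)) a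
  · refine (hm.char _ fun α x hx =>
      Subgroup.characteristic_iff_le_comap.1 inferInstance α hx).resolve_left fun e => h ?_
    exact fun a b => commutatorElement_eq_one_iff_mul_comm.1 (e.le
      (Subgroup.commutator_mem_commutator (Subgroup.mem_top a) (Subgroup.mem_top b)))

theorem Min.elem (hm : X.Min) (hc : ∀ a b : G, a * b = b * a) {r : ℕ} (hr : r.Prime)
    (hd : r ∣ Nat.card G) : X.Elem r := by
  have := X.fin
  have := Fact.mk hr
  obtain ⟨g, hg⟩ := exists_prime_orderOf_dvd_card' r hd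
  have g1 : g ≠ 1 := fun e => hr.one_lt.ne (by rw [← hg, e, orderOf_one])
  let U : Subgroup G :=
    { carrier := {a | a ^ r = 1}
      one_mem' := one_pow r
      mul_mem' := fun {a b} ha hb => by
        change (a * b) ^ r = 1
        rw [Commute.mul_pow (hc a b), ha, hb, mul_one]
      inv_mem' := fun {a} ha => by
        change a⁻¹ ^ r = 1
        rw [inv_pow, ha, inv_one] }
  refine ⟨hr, hc, fun a => ?_, ⟨g, 1, g1⟩, hm⟩
  refine ((hm.char U fun α x hx => ?_).resolve_left fun e => g1 (e.le ?_)).ge (Subgroup.mem_top a)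
  · change α x ^ r = 1
    rw [← map_pow, show x ^ r = 1 from hx, map_one]
  · change g ^ r = 1
    rw [← hg, pow_orderOf_eq_one]

theorem card_fac (X : Ext G Q K) {S : Set Q} (hS : IsSubloop S) (hs : ∀ x, ∃ y ∈ S, X.f y = X.f x)
    {U : Subgroup G} (hU : ∀ n, X.ι n ∈ S ↔ n ∈ U) {p : ℕ}
    (h : (Nat.card U).factorization p = (Nat.card G).factorization p) :
    S.ncard.factorization p = (Nat.card Q).factorization p := by
  have := X.fin
  have := X.finK
  have : Nonempty K := ⟨1⟩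
  have h1 : S ∩ X.f ⁻¹' {1} = X.ι '' U := Set.ext fun x => ⟨fun hx => by
    obtain ⟨n, rfl⟩ := (X.ker x).1 hx.2
    exact ⟨n, (hU n).1 hx.1, rfl⟩, by
    rintro ⟨n, hn, rfl⟩
    exact ⟨(hU n).2 hn, X.f_ι n⟩⟩
  have h2 : X.f '' S = Set.univ := Set.eq_univ_of_forall fun k => by
    obtain ⟨x, rfl⟩ := X.f_surj k
    exact hs x
  rw [X.f_mul.card_sub hS, X.card, h1, h2, Set.ncard_image_of_injective _ X.ι_inj, Set.ncard_univ,
    ← Nat.card_coe_set_eq, Nat.factorization_mul Nat.card_pos.ne' Nat.card_pos.ne',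
    Nat.factorization_mul Nat.card_pos.ne' Nat.card_pos.ne', Finsupp.add_apply, Finsupp.add_apply,
    ← h]
  rfl

theorem card_fac' (X : Ext G Q K) {S : Set Q} (hS : IsSubloop S)
    (hs : ∀ x, ∃ y ∈ S, X.f y = X.f x) {p : ℕ} (h : ¬ p ∣ Nat.card G) :
    S.ncard.factorization p = (Nat.card Q).factorization p := by
  let U : Subgroup G :=
    { carrier := {a | X.ι a ∈ S}
      one_mem' := by
        change X.ι 1 ∈ S
        rw [X.ι_one]
        exact hS.one_mem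
      mul_mem' := fun {a b} ha hb => by
        change X.ι (a * b) ∈ S
        rw [X.ι_mul]
        exact hS.mul_mem _ ha _ hb
      inv_mem' := fun {a} ha => hS.ldiv_mem _ ha _ hS.one_mem _ (by
        rw [← X.ι_mul, mul_inv_cancel, X.ι_one]) }
  refine X.card_fac hS hs (U := U) (fun _ => Iff.rfl) ?_
  rw [Nat.factorization_eq_zero_of_not_dvd h, Nat.factorization_eq_zero_of_not_dvd
    fun e => h (e.trans U.card_subgroup_dvd_card)]

end Ext

omit [IsALoop Q] [Finite Q] in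
theorem sylow_of_pow {p k : ℕ} (hp : p.Prime) (h : Nat.card Q = p ^ k) : HasSylow Q p :=
  ⟨Set.univ, sub_univ, by rw [Set.ncard_univ, h, hp.factorization_pow, Finsupp.single_eq_same]⟩

theorem step {p : ℕ} (hp : p.Prime) (h : Good Q)
    (ih : ∀ (A : Type) [Mul A] [One A] [IsALoop A] [Finite A], Nat.card A < Nat.card Q → Good A →
      HasSylow A p) : HasSylow Q p := by
  have := Fact.mk hp
  have : Nonempty Q := ⟨1⟩
  have red1 : ∀ S : Set Q, IsSubloop S → S ≠ Set.univ →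
      S.ncard.factorization p = (Nat.card Q).factorization p → HasSylow Q p := fun S hS h1 h2 => by
    obtain ⟨T, t1, t2⟩ := ih (Sb hS) (by
      rw [Sb.card, ← Set.ncard_univ]
      exact Set.ncard_lt_ncard (Set.ssubset_univ_iff.2 h1)) (h.inj (Sb.hom hS) (Sb.inj hS))
    exact ⟨_, (Sb.hom hS).map t1, by rw [Set.ncard_image_of_injective _ (Sb.inj hS), t2, Sb.card,
      h2]⟩
  have red2 : ∀ (K : Type) [Mul K] [One K] [IsALoop K] (f : Q → K), IsHom f →
      Function.Surjective f → f ⁻¹' {1} ≠ {1} → HasSylow Q p ∨ ∃ k, Nat.card K = p ^ k := by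
    intro K _ _ _ f hf hs h1
    have := Finite.of_surjective f hs
    have : Nonempty K := ⟨1⟩
    have h2 : 1 < (f ⁻¹' {1}).ncard := by
      rw [← Set.ncard_singleton (1 : Q)]
      exact Set.ncard_lt_ncard ((Set.singleton_subset_iff.2
        (show 1 ∈ f ⁻¹' {1} from hf.one)).ssubset_of_ne h1.symm)
    obtain ⟨T, t1, t2⟩ := ih K (by
      rw [hf.card hs]
      exact (Nat.lt_mul_iff_one_lt_left Nat.card_pos).2 h2) (h.surj hf hs)
    refine or_iff_not_imp_right.2 fun h3 => red1 _ (hf.comap t1)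
      (fun e => h3 ⟨(Nat.card K).factorization p, ?_⟩) ?_
    · rw [← t2, ← Set.image_preimage_eq T hs, e, Set.image_univ_of_surjective hs, Set.ncard_univ]
    · rw [hf.card_sub (hf.comap t1), hf.card hs, Set.image_preimage_eq T hs, t2,
        Set.inter_eq_right.2 (Set.preimage_mono (Set.singleton_subset_iff.2 t1.one_mem)),
        Nat.factorization_mul (by omega) (pow_pos hp.pos _).ne',
        Nat.factorization_mul (by omega) Nat.card_pos.ne', hp.factorization_pow,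
        Finsupp.add_apply, Finsupp.add_apply, Finsupp.single_eq_same]
  rcases subsingleton_or_nontrivial Q with h0 | h0
  · exact sylow_of_pow hp (k := 0) Nat.card_unique
  obtain ⟨G, _, K, _, _, _, X, hm, hG⟩ := h.exists_ext
  have := X.fin
  have := X.finK
  obtain h1 | ⟨k, hk⟩ := red2 K X.f X.f_mul X.f_surj fun e => by
    obtain ⟨n, hn⟩ := exists_ne (1 : G)
    exact hn (X.ι_inj ((e.le (X.f_ι n)).trans X.ι_one.symm))
  · exact h1
  obtain ⟨q, hq, qd⟩ := Nat.exists_prime_and_dvd (Finite.one_lt_card (α := G)).ne'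
  by_cases hd : p ∣ Nat.card G
  · rcases hm.comm_or with hc | ⟨hc, hc'⟩
    · obtain ⟨j, hj⟩ := IsPGroup.iff_card.1 (hm.elem hc hp hd).pg
      exact sylow_of_pow hp (by rw [X.card, hj, hk, ← pow_add])
    · obtain ⟨S, s1, s2, s3, U, u1, u2⟩ := X.frattini hc hc' hm hp hd
      exact red1 S s1 s2 (X.card_fac s1 s3 u1 u2)
  rcases hm.comm_or with hc | ⟨hc, hc'⟩
  swap
  · obtain ⟨S, s1, s2, s3, -⟩ := X.frattini hc hc' hm hq qd
    exact red1 S s1 s2 (X.card_fac' s1 s3 hd)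
  rcases subsingleton_or_nontrivial K with k0 | k0
  · have : Nonempty K := ⟨1⟩
    exact ⟨{1}, sub_one, by rw [X.card, Nat.card_unique (α := K), mul_one,
      Nat.factorization_eq_zero_of_not_dvd hd, Set.ncard_singleton, pow_zero]⟩
  obtain ⟨G', _, K', _, _, _, Y, hm', hG'⟩ := (h.surj X.f_mul X.f_surj).exists_ext
  have := Y.fin
  obtain ⟨j, -, hj⟩ := (Nat.dvd_prime_pow hp).1 (hk ▸ Dvd.intro _ Y.card.symm)
  have h2 := IsPGroup.of_card hj
  have h3 : ∀ a b : G', a * b = b * a := hm'.comm_or.resolve_right fun e => by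
    have := h2.center_nontrivial
    rw [e.1] at this
    exact false_of_nontrivial_of_subsingleton (⊥ : Subgroup G')
  obtain ⟨S, s1, s2, s3⟩ | ⟨S, s1, s2, i, hi⟩ := Ext.caseA (hm.elem hc hq qd)
    (hm'.elem h3 hp (h2.card_eq_or_dvd.resolve_left Finite.one_lt_card.ne'))
    fun e => hd (e ▸ qd)
  · exact red1 S s1 s2 (X.card_fac' s1 s3 hd)
  · obtain h1 | ⟨l, hl⟩ := red2 _ _ (Qt.hom s1) (Qt.surj s1) fun e =>
      s2 ((Set.ext fun x => (Qt.ker s1).symm).trans e)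
    · exact h1
    · exact sylow_of_pow hp (by rw [Qt.card s1, hi, hl, ← pow_add])

theorem Good.sylow {p : ℕ} (hp : p.Prime) (h : Good Q) : HasSylow Q p := by
  generalize hn : Nat.card Q = n
  induction n using Nat.strong_induction_on generalizing Q with
  | _ n ih => exact step hp h fun A _ _ _ _ h1 h2 => ih _ (hn ▸ h1) h2 rfl

end

end Pool.Agent.ALoop
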