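import Pool.Agent.P.MP_b7c14b_al.Basic

/-! Subloops and factor loops of automorphic loops are automorphic loops. -/

namespace Pool.Agent.ALoop

noncomputable section

/-- Loops, without the condition on inner mappings. -/
theorem push_aux {A B : Type} [Mul A] [Mul B] [One B] [IsALoop B] {f : A → B} (hf : IsHom f)
    {σ : Equiv.Perm A} (hσ : σ ∈ mlt A) : ∃ g : Γ B, ∀ x, f (σ x) = g • f x := by
  induction hσ using Subgroup.closure_induction with
  | mem σ hσ =>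
    obtain ⟨a, h | h⟩ := hσ
    · exact ⟨L (f a), fun x => by rw [h, hf, L_smul]⟩
    · exact ⟨R (f a), fun x => by rw [h, hf, R_smul]⟩
  | one => exact ⟨1, fun x => by rw [one_smul]; rfl⟩
  | mul x y _ _ ihx ihy =>
    obtain ⟨k, hk⟩ := ihx
    obtain ⟨k', hk'⟩ := ihy
    exact ⟨k * k', fun z => by rw [Equiv.Perm.mul_apply, hk, hk', mul_smul]⟩
  | inv x _ ih =>
    obtain ⟨k, hk⟩ := ih
    exact ⟨k⁻¹, fun z => by rw [eq_inv_smul_iff, ← hk]; simp⟩

theorem pull_aux {A B : Type} [Mul A] [One A] [IsALoop A] [Mul B] {f : A → B} (hf : IsHom f)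
    (hs : Function.Surjective f) {σ : Equiv.Perm B} (hσ : σ ∈ mlt B) :
    ∃ g : Γ A, ∀ x, f (g • x) = σ (f x) := by
  induction hσ using Subgroup.closure_induction with
  | mem σ hσ =>
    obtain ⟨b, h⟩ := hσ
    obtain ⟨a, rfl⟩ := hs b
    rcases h with h | h
    · exact ⟨L a, fun x => by rw [h, L_smul, hf]⟩
    · exact ⟨R a, fun x => by rw [h, R_smul, hf]⟩
  | one => exact ⟨1, fun x => by rw [one_smul]; rfl⟩
  | mul x y _ _ ihx ihy =>
    obtain ⟨k, hk⟩ := ihx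
    obtain ⟨k', hk'⟩ := ihy
    exact ⟨k * k', fun z => by rw [Equiv.Perm.mul_apply, mul_smul, hk, hk']⟩
  | inv x _ ih =>
    obtain ⟨k, hk⟩ := ih
    exact ⟨k⁻¹, fun z => by rw [Equiv.Perm.eq_inv_iff_eq, ← hk, smul_inv_smul]⟩

variable {Q : Type} [Mul Q] [One Q]

/-- A subloop as a type. -/
def Sb {S : Set Q} (_ : IsSubloop S) : Type := ↥S

namespace Sb

variable {S : Set Q} (hS : IsSubloop S)

/-- The inclusion. -/
def val (x : Sb hS) : Q := Subtype.val x

instance : Mul (Sb hS) := ⟨fun x y => ⟨val hS x * val hS y, hS.mul_mem _ x.2 _ y.2⟩⟩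

instance : One (Sb hS) := ⟨⟨1, hS.one_mem⟩⟩

instance [Finite Q] : Finite (Sb hS) := inferInstanceAs (Finite S)

theorem hom : IsHom (val hS) := fun _ _ => rfl

theorem inj : Function.Injective (val hS) := Subtype.val_injective

theorem mem (x : Sb hS) : val hS x ∈ S := x.2

theorem ex {x : Q} (hx : x ∈ S) : ∃ y, val hS y = x := ⟨⟨x, hx⟩, rfl⟩

theorem card : Nat.card (Sb hS) = S.ncard := Nat.card_coe_set_eq S

instance [IsALoop Q] : IsALoop (Sb hS) where
  one_mul a := inj hS (lone _)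
  mul_one a := inj hS (rone _)
  left a b := by
    obtain ⟨x, hx⟩ := lex (val hS a) (val hS b)
    exact ⟨⟨x, hS.ldiv_mem _ a.2 _ b.2 _ hx⟩, inj hS hx,
      fun y hy => inj hS (lcan ((congrArg (val hS) hy).trans hx.symm))⟩
  right a b := by
    obtain ⟨x, hx⟩ := rex (val hS a) (val hS b)
    exact ⟨⟨x, hS.rdiv_mem _ a.2 _ b.2 _ hx⟩, inj hS hx,
      fun y hy => inj hS (rcan ((congrArg (val hS) hy).trans hx.symm))⟩
  aut φ hφ h1 x y := by
    obtain ⟨g, hg⟩ := push_aux (hom hS) hφ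
    have h2 : g • (1 : Q) = 1 := (hg 1).symm.trans (congrArg (val hS) h1)
    apply inj hS
    rw [hom, hg, hg, hg, hom, aut h2]

end Sb

variable [IsALoop Q] {N : Set Q}

theorem IsNormal.key (hN : IsNormal N) (g : Γ Q) {n : Q} (hn : n ∈ N) (y : Q) :
    ∃ n' ∈ N, g • (n * y) = n' * g • y := by
  refine ⟨((R (g • y))⁻¹ * g * R y) • n, hN.smul ?_ hn, ?_⟩
  · rw [mul_smul, mul_smul, R_smul, lone, Ri_self]
  · rw [mul_smul, mul_smul, R_smul, mul_Ri]

/-- Congruence modulo a normal subloop. -/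
def cong (hN : IsNormal N) : Setoid Q where
  r x y := ∃ n ∈ N, x = n * y
  iseqv := by
    refine ⟨fun x => ⟨1, hN.1.one_mem, (lone x).symm⟩, ?_, ?_⟩
    · rintro _ y ⟨n, hn, rfl⟩
      obtain ⟨m, hm⟩ := rex n 1
      obtain ⟨n', hn', e⟩ := hN.key (R y) (hN.1.rdiv_mem _ hn _ hN.1.one_mem _ hm) n
      exact ⟨n', hn', by rwa [hm, R_smul, R_smul, lone] at e⟩
    · rintro _ _ z ⟨n, hn, rfl⟩ ⟨m, hm, rfl⟩
      obtain ⟨n', hn', e⟩ := hN.key (R z)⁻¹ hn (m * z)
      rw [Ri_mul, inv_smul_eq_iff, R_smul] at e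
      exact ⟨_, hN.1.mul_mem _ hn' _ hm, e⟩

theorem cong_smul (hN : IsNormal N) (g : Γ Q) {x y : Q} (h : cong hN x y) :
    cong hN (g • x) (g • y) := by
  obtain ⟨n, hn, rfl⟩ := h
  exact hN.key g hn y

/-- The factor loop. -/
def Qt (hN : IsNormal N) : Type := Quotient (cong hN)

namespace Qt

variable (hN : IsNormal N)

/-- The projection. -/
def mk (x : Q) : Qt hN := Quotient.mk _ x

instance : Mul (Qt hN) :=
  ⟨Quotient.map₂ (· * ·) fun _ a' ha b _ hb =>
    (cong hN).trans (cong_smul hN (R b) ha) (cong_smul hN (L a') hb)⟩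

instance : One (Qt hN) := ⟨mk hN 1⟩

instance [Finite Q] : Finite (Qt hN) := Quotient.finite _

theorem hom : IsHom (mk hN) := fun _ _ => rfl

theorem surj : Function.Surjective (mk hN) := Quotient.mk_surjective

theorem eq {x y : Q} : mk hN x = mk hN y ↔ cong hN x y := Quotient.eq

theorem ker {x : Q} : mk hN x = 1 ↔ x ∈ N := by
  refine (eq hN).trans ⟨?_, fun h => ⟨x, h, (rone x).symm⟩⟩
  rintro ⟨n, hn, rfl⟩
  rwa [rone]

instance : IsALoop (Qt hN) where
  one_mul a := by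
    obtain ⟨a, rfl⟩ := surj hN a
    exact congrArg (mk hN) (lone a)
  mul_one a := by
    obtain ⟨a, rfl⟩ := surj hN a
    exact congrArg (mk hN) (rone a)
  left a b := by
    obtain ⟨a, rfl⟩ := surj hN a
    obtain ⟨b, rfl⟩ := surj hN b
    obtain ⟨x, rfl⟩ := lex a b
    refine ⟨mk hN x, rfl, fun y hy => ?_⟩
    obtain ⟨y, rfl⟩ := surj hN y
    have := cong_smul hN (L a)⁻¹ ((eq hN).1 hy)
    rw [Li_mul, Li_mul] at this
    exact (eq hN).2 this
  right a b := by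
    obtain ⟨a, rfl⟩ := surj hN a
    obtain ⟨b, rfl⟩ := surj hN b
    obtain ⟨x, rfl⟩ := rex a b
    refine ⟨mk hN x, rfl, fun y hy => ?_⟩
    obtain ⟨y, rfl⟩ := surj hN y
    have := cong_smul hN (R a)⁻¹ ((eq hN).1 hy)
    rw [Ri_mul, Ri_mul] at this
    exact (eq hN).2 this
  aut φ hφ h1 x y := by
    obtain ⟨g, hg⟩ := pull_aux (hom hN) (surj hN) hφ
    have h2 : g • (1 : Q) ∈ N := (ker hN).1 ((hg 1).trans h1)
    have h3 : ((L (g • (1 : Q)))⁻¹ * g) • (1 : Q) = 1 := by rw [mul_smul, Li_self]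
    have h4 : ∀ x, mk hN (((L (g • (1 : Q)))⁻¹ * g) • x) = φ (mk hN x) := fun x => by
      rw [← hg, mul_smul]
      exact ((eq hN).2 ⟨_, h2, (mul_Li _ _).symm⟩).symm
    obtain ⟨x, rfl⟩ := surj hN x
    obtain ⟨y, rfl⟩ := surj hN y
    rw [← hom, ← h4, ← h4, ← h4, aut h3, hom]

theorem card : Nat.card Q = N.ncard * Nat.card (Qt hN) := by
  rw [(hom hN).card (surj hN)]
  congr 2
  exact Set.ext fun x => ker hN

end Qt

/-- An associative subloop is the image of a group. -/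
theorem exists_group {S : Set Q} (hS : IsSubloop S)
    (ha : ∀ x ∈ S, ∀ y ∈ S, ∀ z ∈ S, x * y * z = x * (y * z)) :
    ∃ (G : Type) (_ : Group G) (ι : G → Q), IsHom ι ∧ Function.Injective ι ∧ ι 1 = 1 ∧
      Set.range ι = S := by
  let _ : Inv (Sb hS) := ⟨fun a => (rex a 1).choose⟩
  refine ⟨Sb hS, Group.ofLeftAxioms (fun a b c => Sb.inj hS (ha _ a.2 _ b.2 _ c.2)) lone
    (fun a => (rex a 1).choose_spec), Sb.val hS, fun _ _ => rfl, Sb.inj hS, rfl,
    Subtype.range_val⟩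

end

end Pool.Agent.ALoop
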