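import Pool.Agent.P.MP_b7c14b_al.Ext

/-! An elementary abelian minimal normal subloop: the group of translations along the cosets. -/

namespace Pool.Agent.ALoop

noncomputable section

theorem exists_normal_pgroup {H : Type} [Group H] [Finite H] {p : ℕ} {T W : Subgroup H}
    [hW : W.Normal] (hT : IsPGroup p T) (h1 : T ≤ W)
    (h2 : ∀ w ∈ W, ∀ g ∈ T, w * g * w⁻¹ ∈ T) :
    ∃ O : Subgroup H, O.Normal ∧ IsPGroup p O ∧ T ≤ O ∧ O ≤ W := by
  obtain ⟨S, hS⟩ := exists_maximal_of_wellFoundedGT (fun S : Subgroup H => IsPGroup p S ∧ S ≤ W)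
    ⟨T, hT, h1⟩
  refine ⟨S.normalCore, inferInstance, hS.1.1.to_le S.normalCore_le, fun g hg γ => ?_,
    S.normalCore_le.trans hS.1.2⟩
  let T' := T.comap (MulAut.conj γ⁻¹).toMonoidHom
  have m : ∀ x, x ∈ T' ↔ γ⁻¹ * x * γ ∈ T := fun x => by simp [T']
  have h3 : T' ≤ W := fun x hx => by
    simpa [mul_assoc] using hW.conj_mem _ (h1 ((m x).1 hx)) γ
  have h4 : IsPGroup p (T' ⊔ S : Subgroup H) :=
    (hT.comap_of_injective _ (MulAut.conj γ⁻¹).injective).to_sup_of_normal_left' hS.1.1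
      (Subgroup.le_normalizer_iff.2 fun s hs x hx => (m _).2 (by
        simpa [mul_assoc] using h2 _ (hW.conj_mem' _ (hS.1.2 hs) γ) _ ((m x).1 hx)))
  exact hS.2 ⟨h4, sup_le h3 hS.1.2⟩ le_sup_right
    (le_sup_left (a := T') ((m _).2 (by simpa [mul_assoc] using hg)))

namespace Ext

variable {G Q K : Type} [Group G] [Mul Q] [One Q] [IsALoop Q] [Mul K] [One K] [IsALoop K]
  (X : Ext G Q K)

/-- `G` is an elementary abelian `p`-group and a minimal normal subloop. -/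
structure Elem (p : ℕ) : Prop where
  prime : p.Prime
  comm : ∀ a b : G, a * b = b * a
  exp : ∀ a : G, a ^ p = 1
  nt : Nontrivial G
  min : X.Min

/-- The maps fixing all cosets. -/
def W : Subgroup (Γ Q) := (ind X.f_mul X.f_surj).ker

instance : X.W.Normal := MonoidHom.normal_ker _

theorem mem_W {g : Γ Q} : g ∈ X.W ↔ ∀ x, X.f (g • x) = X.f x := mem_ker_ind _ _

/-- The maps fixing all cosets which are translations on `G`. -/
def Θ : Subgroup (Γ Q) where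
  carrier := {g | g ∈ X.W ∧ ∃ t, ∀ x, g • X.ι x = X.ι (t * x)}
  one_mem' := ⟨one_mem _, 1, fun x => by rw [one_smul, one_mul]⟩
  mul_mem' := by
    rintro a b ⟨ha, s, hs⟩ ⟨hb, t, ht⟩
    exact ⟨mul_mem ha hb, s * t, fun x => by rw [mul_smul, ht, hs, mul_assoc]⟩
  inv_mem' := by
    rintro a ⟨ha, s, hs⟩
    exact ⟨inv_mem ha, s⁻¹, fun x => by rw [inv_smul_eq_iff, hs, mul_inv_cancel_left]⟩

theorem L_mem_Θ (m : G) : L (X.ι m) ∈ X.Θ :=
  ⟨X.mem_W.2 (X.f_left m), m, fun x => (X.ι_mul m x).symm⟩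

theorem eq_one_of_fix {g : Γ Q} (h1 : ∀ x, g • X.ι x = X.ι x)
    (h2 : ∀ y, ∃ z, X.f z = X.f y ∧ g • z = z) : g = 1 := Γext fun y => by
  obtain ⟨z, e, hz⟩ := h2 y
  obtain ⟨n, rfl⟩ := X.eq_left e.symm
  rw [aut (X.ι_one ▸ h1 1), h1, hz, one_smul]

variable {X} {p : ℕ}

theorem Elem.R_mem (E : X.Elem p) (m : G) : R (X.ι m) ∈ X.Θ :=
  ⟨X.mem_W.2 (X.f_right m), m, fun x => by rw [R_smul, ← X.ι_mul, E.comm]⟩

omit [IsALoop Q] [IsALoop K] in
theorem Elem.pg (E : X.Elem p) : IsPGroup p G := fun g => ⟨1, by rw [pow_one, E.exp]⟩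

variable [Finite Q]

omit [IsALoop Q] [IsALoop K] in
theorem fin (X : Ext G Q K) : Finite G := Finite.of_injective _ X.ι_inj

omit [IsALoop Q] [IsALoop K] in
theorem Elem.dvd (E : X.Elem p) {r : ℕ} (hr : r.Prime) : r ∣ Nat.card G ↔ r = p := by
  have := X.fin
  have := Fact.mk E.prime
  have := E.nt
  obtain ⟨n, hn, e⟩ := E.pg.nontrivial_iff_card.1 this
  rw [e]
  exact ⟨fun h => (Nat.prime_dvd_prime_iff_eq hr E.prime).1 (hr.dvd_of_dvd_pow h),
    fun h => h ▸ dvd_pow_self _ hn.ne'⟩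

theorem Elem.normal (E : X.Elem p) : X.Θ.Normal := by
  have := X.fin
  have := Fact.mk E.prime
  have h1 : IsPGroup p X.Θ := isPGroup_of_prime fun g ⟨hg, t, ht⟩ r hr hne e => by
    have h2 : ∀ n : ℕ, g ^ n • X.ι 1 = X.ι (t ^ n) := fun n => by
      induction n with
      | zero => rw [pow_zero, pow_zero, one_smul]
      | succ n ih => rw [pow_succ', mul_smul, ih, ht, pow_succ']
    have h3 := h2 r
    rw [e, one_smul] at h3
    rw [eq_one_of_primes hr E.prime hne (X.ι_inj h3).symm (E.exp t)] at ht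
    exact X.eq_one_of_fix (fun x => by rw [ht, one_mul])
      (X.fix_coset hr (mt (E.dvd hr).1 hne) e (X.mem_W.1 hg))
  obtain ⟨O, hO, h2, h3, h4⟩ := exists_normal_pgroup h1 (W := X.W) (fun g hg => hg.1) (by
    rintro w hw g ⟨hg, t, ht⟩
    refine ⟨mul_mem (mul_mem hw hg) (inv_mem hw), ?_⟩
    obtain ⟨α, hα⟩ := X.coordL w 1
    obtain ⟨c, hc⟩ := (X.ker _).1 ((X.mem_W.1 hw 1).trans X.f_mul.one)
    simp only [rone, ← hc, ← X.ι_mul _ c] at hα
    refine ⟨α t, fun x => ?_⟩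
    obtain ⟨y, hy⟩ := α.surjective (x * c⁻¹)
    have : X.ι x = w • X.ι y := by rw [hα, hy, inv_mul_cancel_right]
    rw [this, mul_smul, mul_smul, inv_smul_smul, ht, hα, map_mul, hy, mul_assoc,
      inv_mul_cancel_right])
  have h5 := E.min.fix_all (P := O ⊓ MulAction.stabilizer (Γ Q) (1 : Q)) (h2.to_le inf_le_left)
    ((E.dvd E.prime).2 rfl) (fun g hg => hg.2) fun h e g hg => ⟨hO.conj_mem' _ hg.1 h, by
      change _ • _ = _
      rw [mul_smul, mul_smul, e, hg.2, inv_fix e]⟩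
  have h6 : O ≤ X.Θ := fun g hg => by
    obtain ⟨c, hc⟩ := (X.ker _).1 ((X.mem_W.1 (h4 hg) 1).trans X.f_mul.one)
    refine ⟨h4 hg, c, fun x => ?_⟩
    have := h5 ((L (X.ι c))⁻¹ * g) ⟨O.mul_mem (O.inv_mem (h3 (X.L_mem_Θ c))) hg, by
      change _ • _ = _
      rw [mul_smul, ← hc, Li_self]⟩ x
    rwa [mul_smul, inv_smul_eq_iff, L_smul, ← X.ι_mul] at this
  exact le_antisymm h6 h3 ▸ hO

theorem Elem.tr (E : X.Elem p) {g : Γ Q} (hg : g ∈ X.Θ) (b : Q) :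
    ∃ t, ∀ x, g • (X.ι x * b) = X.ι (t * x) * b := by
  obtain ⟨-, t, ht⟩ := E.normal.conj_mem' g hg (R b)
  refine ⟨t, fun x => ?_⟩
  have := ht x
  rwa [mul_smul, mul_smul, inv_smul_eq_iff, R_smul, R_smul] at this

theorem Elem.comm' (E : X.Elem p) {g g' : Γ Q} (hg : g ∈ X.Θ) (hg' : g' ∈ X.Θ) :
    g * g' = g' * g := Γext fun y => by
  obtain ⟨t, ht⟩ := E.tr hg y
  obtain ⟨s, hs⟩ := E.tr hg' y
  rw [← lone y, ← X.ι_one, mul_smul, mul_smul, ht, hs, ht, hs, mul_one, mul_one, E.comm]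

theorem Elem.exp' (E : X.Elem p) {g : Γ Q} (hg : g ∈ X.Θ) : g ^ p = 1 := Γext fun y => by
  obtain ⟨t, ht⟩ := E.tr hg y
  have h2 : ∀ n : ℕ, g ^ n • y = X.ι (t ^ n) * y := fun n => by
    induction n with
    | zero => rw [pow_zero, pow_zero, one_smul, X.ι_one, lone]
    | succ n ih => rw [pow_succ', mul_smul, ih, ht, pow_succ']
  rw [h2, E.exp, X.ι_one, lone, one_smul]

/-- A translation with a fixed point fixes the whole coset. -/
theorem Elem.fix (E : X.Elem p) {g : Γ Q} (hg : g ∈ X.Θ) {y z : Q} (hy : g • y = y)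
    (e : X.f z = X.f y) : g • z = z := by
  obtain ⟨t, ht⟩ := E.tr hg y
  obtain ⟨n, rfl⟩ := X.eq_left e
  have := ht 1
  rw [X.ι_one, lone, hy, mul_one] at this
  rw [ht, X.can_left (m := 1) (by rw [← this, X.ι_one, lone] : X.ι t * y = _), one_mul]

theorem Elem.LL (E : X.Elem p) {x y : Q} (h : X.f x = X.f y) : L x * (L y)⁻¹ ∈ X.Θ := by
  obtain ⟨m, rfl⟩ := X.eq_left h
  have : (L y)⁻¹ * L (X.ι m * y) ∈ X.Θ := by
    refine ⟨X.mem_W.2 fun z => lcan (a := X.f y) ?_, ?_⟩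
    · rw [← X.f_mul, mul_smul, mul_Li, L_smul, X.f_mul, h]
    obtain ⟨τ, hτ⟩ := X.res (h := (R y)⁻¹ * L y) (by rw [mul_smul, L_smul, rone, Ri_self])
    have t1 : ∀ x, y * X.ι x = X.ι (τ x) * y := fun x => by rw [← hτ, mul_smul, L_smul, mul_Ri]
    refine ⟨τ.symm m, fun z => ?_⟩
    obtain ⟨t, ht⟩ := E.tr (E.R_mem z) y
    have h1 := ht 1
    rw [X.ι_one, lone, mul_one, R_smul, t1] at h1
    rw [mul_smul, inv_smul_eq_iff, L_smul, L_smul, t1, ← R_smul, ht, ← X.can_left h1, map_mul,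
      MulEquiv.apply_symm_apply, E.comm]
  simpa [mul_assoc] using E.normal.conj_mem _ this (L y)

theorem Elem.RR (E : X.Elem p) {x y : Q} (h : X.f x = X.f y) : R x * (R y)⁻¹ ∈ X.Θ := by
  obtain ⟨m, rfl⟩ := X.eq_left h
  have : (R y)⁻¹ * R (X.ι m * y) ∈ X.Θ := by
    refine ⟨X.mem_W.2 fun z => rcan (a := X.f y) ?_, m, fun z => ?_⟩
    · rw [← X.f_mul, mul_smul, mul_Ri, R_smul, X.f_mul, h]
    obtain ⟨t, ht⟩ := E.tr (X.L_mem_Θ z) y
    have h1 := ht 1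
    rw [X.ι_one, lone, mul_one, L_smul] at h1
    rw [mul_smul, inv_smul_eq_iff, R_smul, R_smul, ← L_smul, ht, ← X.can_left h1, E.comm]
  simpa [mul_assoc] using E.normal.conj_mem _ this (R y)

end Ext

end

end Pool.Agent.ALoop
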