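import Pool.Agent.P.MP_b7c14b_al.Theta

/-! Two elementary abelian layers for different primes: basic facts and the central case. -/

namespace Pool.Agent.ALoop

noncomputable section

theorem hom_pow {A B Q Q' : Type} [Group A] [Group B] [Mul Q] [Mul Q'] {φ : A → Q} {ψ : B → Q'}
    {F : Q → Q'} (hφ : IsHom φ) (hψ : IsHom ψ) (hF : IsHom F) (h1 : F (φ 1) = ψ 1) {a : A} {b : B}
    (h : F (φ a) = ψ b) (n : ℕ) : F (φ (a ^ n)) = ψ (b ^ n) := by
  induction n with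
  | zero => rwa [pow_zero, pow_zero]
  | succ n ih => rw [pow_succ, pow_succ, hφ, hψ, hF, ih, h]

namespace Ext

variable {N Q K G K₂ : Type} [Group N] [Mul Q] [One Q] [IsALoop Q] [Mul K] [One K] [IsALoop K]
  [Group G] [Mul K₂] [One K₂] [IsALoop K₂]

theorem Elem.le_or [Finite Q] {X : Ext N Q K} {q : ℕ} (E : X.Elem q) : X.W ≤ X.Θ ∨
    ∃ S : Set Q, IsSubloop S ∧ S ≠ Set.univ ∧ ∀ x, ∃ y ∈ S, X.f y = X.f x := by
  have := X.fin
  have := Fact.mk E.prime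
  refine or_iff_not_imp_right.2 fun hS => ?_
  have h1 : IsPGroup q (X.W ⊓ MulAction.stabilizer (Γ Q) (1 : Q) : Subgroup _) :=
    isPGroup_of_prime fun g hg r hr hne e => by
      by_contra h
      refine hS ⟨{y | g • y = y}, sub_of_mul hg.2 fun a ha b hb => ?_,
        fun hu => h (Γext fun y => (hu ▸ Set.mem_univ y : y ∈ {y | g • y = y})), fun x => ?_⟩
      · change g • (a * b) = _
        rw [aut hg.2, ha, hb]
      · obtain ⟨z, h1, h2⟩ := X.fix_coset hr (mt (E.dvd hr).1 hne) e (X.mem_W.1 hg.1) x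
        exact ⟨z, h2, h1⟩
  have h5 := E.min.fix_all h1 ((E.dvd E.prime).2 rfl) (fun g hg => hg.2) fun h e g hg =>
    ⟨Subgroup.Normal.conj_mem' inferInstance _ hg.1 h, by
      change _ • _ = _
      rw [mul_smul, mul_smul, e, hg.2, inv_fix e]⟩
  intro g hg
  obtain ⟨c, hc⟩ := (X.ker _).1 ((X.mem_W.1 hg 1).trans X.f_mul.one)
  refine ⟨hg, c, fun x => ?_⟩
  have := h5 ((L (X.ι c))⁻¹ * g) ⟨X.W.mul_mem (X.W.inv_mem (X.L_mem_Θ c).1) hg, by
    change _ • _ = _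
    rw [mul_smul, ← hc, Li_self]⟩ x
  rwa [mul_smul, inv_smul_eq_iff, L_smul, ← X.ι_mul] at this

variable (X : Ext N Q K) (Y : Ext G K K₂)

/-- The composite projection. -/
def c (x : Q) : K₂ := Y.f (X.f x)

omit [IsALoop Q] [IsALoop K] [IsALoop K₂] in
theorem c_mul : IsHom (X.c Y) := fun x y => by rw [c, X.f_mul, Y.f_mul]; rfl

omit [IsALoop Q] [IsALoop K] [IsALoop K₂] in
theorem c_eq {x y : Q} (h : X.f x = X.f y) : X.c Y x = X.c Y y := congrArg Y.f h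

omit [IsALoop K] in
theorem c_one : X.c Y 1 = 1 := (X.c_mul Y).one

omit [IsALoop Q] [IsALoop K] [IsALoop K₂] in
theorem c_ι (n : N) : X.c Y (X.ι n) = 1 := by
  rw [c, X.f_ι, ← Y.ι_one, Y.f_ι]

/-- The preimage of the translation group of the upper layer. -/
def E : Subgroup (Γ Q) := Y.Θ.comap (ind X.f_mul X.f_surj)

/-- The translations along the lower layer which fix the middle term pointwise. -/
def D : Set (Γ Q) := {d | d ∈ X.W ∧ ∀ z, X.c Y z = 1 → d • z = z}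

/-- The centralizer of `D` in `E`. -/
def C : Subgroup (Γ Q) := X.E Y ⊓ Subgroup.centralizer (X.D Y)

theorem W_le : X.W ≤ X.E Y := fun g hg => by
  change ind _ _ g ∈ Y.Θ
  rw [show ind _ _ g = 1 from hg]
  exact one_mem _

theorem c_smul {g : Γ Q} (hg : g ∈ X.E Y) (x : Q) : X.c Y (g • x) = X.c Y x := by
  rw [c, ← ind_smul X.f_mul X.f_surj]
  exact Y.mem_W.1 hg.1 _

/-- Two elementary abelian layers. -/
structure Two (q p : ℕ) : Prop where
  ex : X.Elem q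
  ey : Y.Elem p
  ne : p ≠ q
  le : X.W ≤ X.Θ

variable {X Y} {q p : ℕ} [Finite Q]

omit [IsALoop Q] [IsALoop K] in
theorem finK (X : Ext N Q K) : Finite K := Finite.of_surjective _ X.f_surj

namespace Two

variable (T : X.Two Y q p)

include T

theorem normal : (X.E Y).Normal := have := X.finK; T.ey.normal.comap _

theorem comm_mem {g g' : Γ Q} (hg : g ∈ X.E Y) (hg' : g' ∈ X.E Y) :
    g * g' * g⁻¹ * g'⁻¹ ∈ X.W := by
  have := X.finK
  change ind _ _ _ = 1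
  rw [map_mul, map_mul, map_mul, T.ey.comm' hg hg', map_inv, map_inv]
  group

theorem pow_mem {g : Γ Q} (hg : g ∈ X.E Y) : g ^ p ∈ X.W := by
  have := X.finK
  change ind _ _ _ = 1
  rw [map_pow, T.ey.exp' hg]

theorem LL {x y : Q} (h : X.c Y x = X.c Y y) : L x * (L y)⁻¹ ∈ X.E Y := by
  have := X.finK
  change ind _ _ _ ∈ Y.Θ
  rw [map_mul, map_inv, ind_L, ind_L]
  exact T.ey.LL h

theorem RR {x y : Q} (h : X.c Y x = X.c Y y) : R x * (R y)⁻¹ ∈ X.E Y := by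
  have := X.finK
  change ind _ _ _ ∈ Y.Θ
  rw [map_mul, map_inv, ind_R, ind_R]
  exact T.ey.RR h

theorem fixf {g : Γ Q} (hg : g ∈ X.E Y) {y z : Q} (hy : X.f (g • y) = X.f y)
    (e : X.c Y z = X.c Y y) : X.f (g • z) = X.f z := by
  have := X.finK
  rw [← ind_smul X.f_mul X.f_surj] at hy ⊢
  exact T.ey.fix hg hy e

omit [IsALoop K₂] in
theorem wcomm {g g' : Γ Q} (hg : g ∈ X.W) (hg' : g' ∈ X.W) : g * g' = g' * g :=
  T.ex.comm' (T.le hg) (T.le hg')

omit [IsALoop K₂] in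
theorem wfix {g : Γ Q} (hg : g ∈ X.W) {y z : Q} (hy : g • y = y) (e : X.f z = X.f y) :
    g • z = z := T.ex.fix (T.le hg) hy e

theorem L_mem {m : Q} (hm : X.c Y m = 1) : L m ∈ X.C Y := by
  refine ⟨by simpa [L_one] using T.LL (hm.trans (X.c_one Y).symm), fun d hd => ?_⟩
  rw [conj_L (hd.2 1 (X.c_one Y)), hd.2 m hm]

theorem R_mem {m : Q} (hm : X.c Y m = 1) : R m ∈ X.C Y := by
  have : R (1 : Q) = 1 := Γext fun x => by rw [R_smul, rone, one_smul]
  refine ⟨by simpa [this] using T.RR (hm.trans (X.c_one Y).symm), fun d hd => ?_⟩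
  rw [conj_R (hd.2 1 (X.c_one Y)), hd.2 m hm]

theorem dichotomy : (∀ n, (∀ g ∈ X.C Y, g • (1 : Q) = 1 → g • X.ι n = X.ι n) → n = 1) ∨
    ∀ g ∈ X.C Y, g • (1 : Q) = 1 → ∀ n, g • X.ι n = X.ι n := by
  refine (T.ex.min.fixU (P := {g | g ∈ X.C Y ∧ g • (1 : Q) = 1}) (fun g hg => hg.2)
    fun h e g hg => ⟨⟨T.normal.conj_mem' _ hg.1.1 h, fun d hd => ?_⟩, ?_⟩).imp
    (fun h n hn => ?_) fun h g hg e n => ?_
  · have := hg.1.2 (h * d * h⁻¹) ⟨Subgroup.Normal.conj_mem inferInstance _ hd.1 h, fun z hz => by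
      rw [mul_smul, mul_smul, hd.2, smul_inv_smul]
      rw [(X.c_mul Y).congr _ (hz.trans (X.c_one Y).symm), inv_fix e, X.c_one]⟩
    calc _ = h⁻¹ * (h * d * h⁻¹ * g) * h := by group
      _ = _ := by rw [this]; group
  · rw [mul_smul, mul_smul, e, hg.2, inv_fix e]
  · rw [← Subgroup.mem_bot, ← h]
    exact fun g hg => hn g hg.1 hg.2
  · exact (h.ge (Subgroup.mem_top n)) g ⟨hg, e⟩

theorem fixM (hU : ∀ g ∈ X.C Y, g • (1 : Q) = 1 → ∀ n, g • X.ι n = X.ι n) {g : Γ Q}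
    (hg : g ∈ X.C Y) (e : g • (1 : Q) = 1) {x : Q} (hx : X.c Y x = 1) : g • x = x := by
  have cm : ∀ {x y}, X.c Y x = 1 → X.c Y y = 1 → X.c Y (x * y) = 1 := fun hx hy => by
    rw [X.c_mul, hx, hy, lone]
  have a : ∀ {x y}, X.c Y x = 1 → X.c Y y = 1 → ∀ n, x * (y * X.ι n) = x * y * X.ι n :=
    fun {x y} hx hy n => by
      have := hU ((L (x * y))⁻¹ * L x * L y) (mul_mem (mul_mem (inv_mem (T.L_mem (cm hx hy)))
        (T.L_mem hx)) (T.L_mem hy)) (by simp only [mul_smul, L_smul, rone, Li_self]) n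
      rwa [mul_smul, mul_smul, inv_smul_eq_iff] at this
  have b : ∀ {x y}, X.c Y x = 1 → X.c Y y = 1 → ∀ n, X.ι n * x * y = X.ι n * (x * y) :=
    fun {x y} hx hy n => by
      have := hU ((R (x * y))⁻¹ * R y * R x) (mul_mem (mul_mem (inv_mem (T.R_mem (cm hx hy)))
        (T.R_mem hy)) (T.R_mem hx)) (by simp only [mul_smul, R_smul, lone, Ri_self]) n
      rwa [mul_smul, mul_smul, inv_smul_eq_iff] at this
  have c : ∀ {x}, X.c Y x = 1 → ∀ n, x * X.ι n = X.ι n * x := fun {x} hx n => by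
    have := hU ((R x)⁻¹ * L x) (mul_mem (inv_mem (T.R_mem hx)) (T.L_mem hx))
      (by simp only [mul_smul, L_smul, rone, Ri_self]) n
    rwa [mul_smul, inv_smul_eq_iff] at this
  obtain ⟨n, hn⟩ := X.eq_left (T.fixf hg.1 (congrArg X.f e) (hx.trans (X.c_one Y).symm))
  have h1 : ∀ i : ℕ, X.c Y (L x ^ i • (1 : Q)) = 1 := fun i => by
    rw [X.c_smul Y (Subgroup.pow_mem _ (T.L_mem hx).1 i), X.c_one]
  have h2 : ∀ i : ℕ, g • L x ^ i • (1 : Q) = X.ι (n ^ i) * L x ^ i • (1 : Q) := fun i => by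
    induction i with
    | zero => rw [pow_zero, pow_zero, one_smul, e, X.ι_one, lone]
    | succ i ih =>
      rw [pow_succ', mul_smul, L_smul, aut e, ih, hn, b hx (cm (X.c_ι Y _) (h1 i)), ← c (h1 i),
        a hx (h1 i), c (cm hx (h1 i)), ← b (X.c_ι Y _) (cm hx (h1 i)), ← X.ι_mul, pow_succ']
  obtain ⟨k, hk⟩ := (X.ker _).1 ((X.mem_W.1 (T.pow_mem (T.L_mem hx).1) 1).trans X.f_mul.one)
  have h3 := h2 p
  rw [← hk, hU g hg e, ← X.ι_mul] at h3
  rw [hn, eq_one_of_primes T.ey.prime T.ex.prime T.ne (by simpa using (X.ι_inj h3).symm)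
    (T.ex.exp n), X.ι_one, lone]

theorem central (hU : ∀ g ∈ X.C Y, g • (1 : Q) = 1 → ∀ n, g • X.ι n = X.ι n) :
    ∃ S : Set Q, IsNormal S ∧ S ≠ {1} ∧ ∃ j, S.ncard = p ^ j := by
  have hM := (X.c_mul Y).comap sub_one
  obtain ⟨H, _, ι, h1, h2, h3, h4⟩ := exists_group hM fun x hx y hy z hz => by
    have := T.fixM hU (g := (L (x * y))⁻¹ * L x * L y) (mul_mem (mul_mem (inv_mem
      (T.L_mem (hM.mul_mem _ hx _ hy))) (T.L_mem hx)) (T.L_mem hy))
      (by simp only [mul_smul, L_smul, rone, Li_self]) hz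
    rw [mul_smul, mul_smul, inv_smul_eq_iff] at this
    exact this.symm
  have hm : ∀ a, X.c Y (ι a) = 1 := fun a => (h4 ▸ Set.mem_range_self a : ι a ∈ X.c Y ⁻¹' {1})
  have hs : ∀ x, X.c Y x = 1 → ∃ a, ι a = x := fun x hx => (h4.symm ▸ hx : x ∈ Set.range ι)
  have hc : ∀ a b : H, Commute a b := fun a b => h2 (by
    have := T.fixM hU (g := (R (ι a))⁻¹ * L (ι a)) (mul_mem (inv_mem (T.R_mem (hm a)))
      (T.L_mem (hm a))) (by simp only [mul_smul, L_smul, rone, Ri_self]) (hm b)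
    rw [mul_smul, inv_smul_eq_iff] at this
    rw [h1, h1]
    exact this)
  let U : Subgroup H :=
    { carrier := {a | a ^ p = 1}
      one_mem' := one_pow p
      mul_mem' := fun {a b} ha hb => by
        change (a * b) ^ p = 1
        rw [(hc a b).mul_pow, ha, hb, mul_one]
      inv_mem' := fun {a} ha => by
        change a⁻¹ ^ p = 1
        rw [inv_pow, ha, inv_one] }
  refine ⟨ι '' U, ⟨sub_of_mul ⟨1, one_mem U, h3⟩ ?_, ?_⟩, fun h => ?_, ?_⟩
  · rintro _ ⟨a, ha, rfl⟩ _ ⟨b, hb, rfl⟩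
    exact ⟨a * b, U.mul_mem ha hb, h1 a b⟩
  · rintro φ hφ e _ ⟨a, ha, rfl⟩
    have e' : (⟨φ, hφ⟩ : Γ Q) • (1 : Q) = 1 := e
    obtain ⟨b, hb⟩ := hs ((⟨φ, hφ⟩ : Γ Q) • ι a) (by
      rw [(X.c_mul Y).congr _ ((hm a).trans (X.c_one Y).symm), e', X.c_one])
    refine ⟨b, h2 ?_, hb⟩
    rw [← hom_pow (F := fun x => (⟨φ, hφ⟩ : Γ Q) • x) h1 h1 (aut e') (by rw [h3, e']) hb.symm,
      show a ^ p = 1 from ha, h3, e']
  · have := T.ey.nt
    obtain ⟨g, hg⟩ := exists_ne (1 : G)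
    obtain ⟨x, hx⟩ := X.f_surj (Y.ι g)
    obtain ⟨a, rfl⟩ := hs x (by rw [c, hx, Y.f_ι])
    have h5 := hom_pow h1 Y.ι_mul X.f_mul (by rw [h3, Y.ι_one, X.f_mul.one]) hx
    obtain ⟨n, hn⟩ := (X.ker (ι (a ^ p))).1 (by rw [h5, T.ey.exp, Y.ι_one])
    have h6 := hom_pow (F := id) h1 X.ι_mul (fun _ _ => rfl) (h3.trans X.ι_one.symm) hn.symm q
    rw [T.ex.exp, X.ι_one, ← pow_mul, mul_comm, pow_mul, ← h3] at h6
    have h7 : ι (a ^ q) = 1 := (h ▸ ⟨_, h2 h6, rfl⟩ : ι (a ^ q) ∈ ({1} : Set Q))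
    have h8 := h5 q
    rw [h7, X.f_mul.one, ← Y.ι_one] at h8
    exact hg (eq_one_of_primes T.ey.prime T.ex.prime T.ne (T.ey.exp g) (Y.ι_inj h8).symm)
  · have := Fact.mk T.ey.prime
    have := Finite.of_injective _ h2
    rw [Set.ncard_image_of_injective _ h2]
    exact IsPGroup.iff_card.1 fun a : U => ⟨1, Subtype.ext (by rw [pow_one]; exact a.2)⟩

end Two

end Ext

end

end Pool.Agent.ALoop
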